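import Pool.Agent.L5helper92.KS.Expl

/-! Choice of the parameters. -/

namespace Pool.Agent.L5helper92.KS

open Filter

lemma ev_pow (C m : ℕ) : ∀ᶠ x : ℕ in atTop, C * x ^ m < 2 ^ x := by
  have h := tendsto_pow_const_div_const_pow_of_one_lt m (r := (2 : ℝ)) (by norm_num)
  have h2 : ∀ᶠ x : ℕ in atTop, (x : ℝ) ^ m / 2 ^ x < 1 / (C + 1) :=
    h.eventually (gt_mem_nhds (by positivity))
  filter_upwards [h2] with x hx
  rw [div_lt_div_iff₀ (by positivity) (by positivity)] at hx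
  have h3 : ((C * x ^ m : ℕ) : ℝ) < ((2 ^ x : ℕ) : ℝ) := by
    push_cast
    have : (0 : ℝ) ≤ (x : ℝ) ^ m := by positivity
    nlinarith
  exact_mod_cast h3

/-- With `α = D (a - 1) - 1`. -/
theorem par_ev (a k s D t : ℕ) (ha : 2 ≤ a) (hk : 3 ≤ k) (hak : a + s ≤ k) (hD : 2 ≤ D)
    (ht : D + 4 ≤ (D * (a - 1) - 1) * t) :
    ∀ᶠ x : ℕ in atTop, ∀ n b : ℕ, 0 < b → 4 * x ^ ((D * a - 1) * t) ≤ n → 4 * (s * b) ≤ n →
      Par (x ^ ((D * (a - 1) - 1) * t)) (x ^ ((D * (a - 1) - 1) * t + 1)) a (x ^ (D * t)) s b k n D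
        (x ^ ((D * (a - 1) - 1) * t - D - 3) * x) x
        (64 * (2 * (x ^ ((D * (a - 1) - 1) * t - D - 3) * x * x)))
        (x ^ ((D * (a - 1) - 1) * t - D - 3)) x
        (2 * (x ^ ((D * (a - 1) - 1) * t - D - 3) * x * x))
        (4 ^ (x ^ ((D * (a - 1) - 1) * t - D - 3)) / (4 * x)) := by
  obtain ⟨α, hα⟩ : ∃ α, α = D * (a - 1) - 1 := ⟨_, rfl⟩
  obtain ⟨w, hw⟩ : ∃ w, α * t = w + D + 4 := ⟨α * t - D - 4, by rw [hα]; omega⟩
  have hα1 : D * a - 1 = α + D := by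
    obtain ⟨a', rfl⟩ : ∃ a', a = a' + 1 := ⟨a - 1, by omega⟩
    rw [hα, Nat.add_sub_cancel]
    have : 1 ≤ D * a' := Nat.mul_pos (by omega) (by omega)
    have e : D * (a' + 1) = D * a' + D := by ring
    omega
  rw [hα1, ← hα, hw]
  have e1 : w + D + 4 - D - 3 = w + 1 := by omega
  rw [e1]
  have e2 : (α + D) * t = w + D + 4 + D * t := by rw [add_mul, hw]
  rw [e2]
  filter_upwards [ev_pow 2 (w + 1), ev_pow (4 * 2 ^ 2) ((w + D + 5 + D * t * a) * 2),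
    ev_pow 2 (D * t), eventually_ge_atTop 512,
    eventually_ge_atTop ((12 * 3 ^ a) ^ D * a ^ (D + 1) * 2), eventually_ge_atTop (2 * a * a ^ a),
    eventually_ge_atTop (2 * a)]
    with x h1 h2 h3 h4 h5 h6 h7
  intro n b hb hn1 hn2
  have hx0 : 0 < x := by omega
  have hx1 : 1 ≤ x := hx0
  have hxe : x ≤ x ^ (w + 1) := Nat.le_self_pow (by omega) x
  have hmono : ∀ i j : ℕ, i ≤ j → x ^ i ≤ x ^ j := fun i j h => Nat.pow_le_pow_right hx0 h
  refine
    { ha := ha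
      hk := hk
      hak := hak
      hD := hD
      hb := hb
      hV := Nat.pow_pos hx0
      hQ0 := by positivity
      hr := le_rfl
      hc := hx1
      hJ := h1
      hQ := le_rfl
      hq0 := Nat.pow_pos hx0
      hq := ?_
      hB := ?_
      hPt := ?_
      hce := ?_
      haE := ?_
      hyp := ?_
      hleaf := h6.trans hxe
      hn := ?_
      hS := Nat.mul_div_le _ _ }
  · -- hq
    rw [← hα]
    have h8 : 4 * (64 * (2 * (x ^ (w + 1) * x * x))) * x ≤ x ^ (w + D + 4) := by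
      calc 4 * (64 * (2 * (x ^ (w + 1) * x * x))) * x = 512 * x ^ (w + 4) := by ring
        _ ≤ x * x ^ (w + 4) := Nat.mul_le_mul_right _ h4
        _ = x ^ (w + 5) := by ring
        _ ≤ x ^ (w + D + 4) := hmono _ _ (by omega)
    calc _ ≤ (x ^ (w + D + 4)) ^ D := Nat.pow_le_pow_left h8 D
      _ = (x ^ (D * t)) ^ α := by
        rw [← pow_mul, ← pow_mul, ← hw]
        congr 1
        ring
  · -- hB
    have h8 : (x ^ (w + D + 4 + 1) * (x ^ (D * t)) ^ a + 1) ^ 2 * 4 ≤ 4 ^ x := by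
      have h9 : x ^ (w + D + 4 + 1) * (x ^ (D * t)) ^ a = x ^ (w + D + 5 + D * t * a) := by
        rw [← pow_mul, ← pow_add]
      rw [h9]
      have h10 : x ^ (w + D + 5 + D * t * a) + 1 ≤ 2 * x ^ (w + D + 5 + D * t * a) := by
        have : 1 ≤ x ^ (w + D + 5 + D * t * a) := Nat.one_le_pow _ _ hx0
        omega
      calc (x ^ (w + D + 5 + D * t * a) + 1) ^ 2 * 4 ≤ (2 * x ^ (w + D + 5 + D * t * a)) ^ 2 * 4 :=
            Nat.mul_le_mul_right _ (Nat.pow_le_pow_left h10 2)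
        _ = 4 * 2 ^ 2 * x ^ ((w + D + 5 + D * t * a) * 2) := by
            rw [mul_pow, ← pow_mul]
            ring
        _ ≤ 2 ^ x := h2.le
        _ ≤ 4 ^ x := Nat.pow_le_pow_left (by norm_num) x
    calc (x ^ (w + D + 4 + 1) * (x ^ (D * t)) ^ a + 1) ^ (2 * x ^ (w + 1)) * 4 ^ (x ^ (w + 1))
        = ((x ^ (w + D + 4 + 1) * (x ^ (D * t)) ^ a + 1) ^ 2 * 4) ^ (x ^ (w + 1)) := by
          rw [mul_pow, ← pow_mul (x ^ (w + D + 4 + 1) * (x ^ (D * t)) ^ a + 1)]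
      _ ≤ (4 ^ x) ^ (x ^ (w + 1)) := Nat.pow_le_pow_left h8 _
      _ = 4 ^ (x ^ (w + 1) * x) := by rw [← pow_mul, mul_comm]
  · -- hPt
    have hV1 : x ^ (w + D + 4) ≠ 0 := by positivity
    calc 2 * (x ^ (D * t)) ^ (x ^ (w + D + 4))
        ≤ 2 ^ (x ^ (w + D + 4)) * (x ^ (D * t)) ^ (x ^ (w + D + 4)) :=
          Nat.mul_le_mul_right _ (Nat.le_self_pow hV1 2)
      _ = (2 * x ^ (D * t)) ^ (x ^ (w + D + 4)) := by rw [mul_pow]
      _ ≤ (2 ^ x) ^ (x ^ (w + D + 4)) := Nat.pow_le_pow_left h3.le _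
      _ = 2 ^ (x ^ (w + D + 4 + 1)) := by rw [← pow_mul, pow_succ x (w + D + 4), mul_comm x]
  · -- hce
    calc 4 * x ≤ 4 ^ x := by
          obtain ⟨y, rfl⟩ : ∃ y, x = y + 1 := ⟨x - 1, by omega⟩
          rw [pow_succ, mul_comm]
          apply Nat.mul_le_mul_right
          exact Nat.lt_pow_self (by norm_num)
      _ ≤ 4 ^ (x ^ (w + 1)) := Nat.pow_le_pow_right (by norm_num) hxe
  · -- haE
    calc a * (2 * x ^ (w + 1)) = (2 * a) * x ^ (w + 1) := by ring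
      _ ≤ x * x ^ (w + 1) := Nat.mul_le_mul_right _ h7
      _ = x ^ (w + 2) := by ring
      _ ≤ _ := hmono _ _ (by omega)
  · -- hyp
    calc (12 * 3 ^ a * x ^ (w + D + 4 + 1)) ^ D * a ^ (D + 1) * (2 * x ^ (w + 1))
        = ((12 * 3 ^ a) ^ D * a ^ (D + 1) * 2) * x ^ ((w + D + 5) * D + (w + 1)) := by
          rw [mul_pow, ← pow_mul, pow_add x]
          ring
      _ ≤ x * x ^ ((w + D + 5) * D + (w + 1)) := Nat.mul_le_mul_right _ h5
      _ = x ^ ((w + D + 5) * D + (w + 2)) := by rw [← pow_succ', add_assoc]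
      _ ≤ x ^ ((w + D + 4) * (D + 1)) := hmono _ _ (by nlinarith)
      _ = (x ^ (w + D + 4)) ^ (D + 1) := by rw [pow_mul]
  · -- hn
    rw [← pow_add]
    omega

end Pool.Agent.L5helper92.KS
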