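import Pool.Agent.L5helper92.KS.Asym1

/-! The asymptotic form of the lower bound. -/

namespace Pool.Agent.L5helper92.KS

open Filter Finset Pool.Agent.H520R2.NM

lemma ev_rpow (δ C : ℝ) (hδ : 0 < δ) : ∀ᶠ n : ℕ in atTop, C ≤ (n : ℝ) ^ δ :=
  ((tendsto_rpow_atTop hδ).comp tendsto_natCast_atTop_atTop).eventually_ge_atTop C

lemma sum_zero_of_prod (L : List ℕ) (h : (L.map (· + 1)).prod ≤ 1) : L.sum = 0 := by
  induction L with
  | nil => rfl
  | cons w L ih =>
    rw [List.map_cons, List.prod_cons] at h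
    have h1 : 1 ≤ (L.map (· + 1)).prod := by
      apply Nat.one_le_iff_ne_zero.mpr
      intro h0
      rw [List.prod_eq_zero_iff] at h0
      obtain ⟨v, _, hv⟩ := List.mem_map.mp h0
      simp at hv
    have h2 : w = 0 := by nlinarith
    subst h2
    rw [zero_add, one_mul] at h
    rw [List.sum_cons, ih h]

/-- the function `x` of `n` -/
noncomputable def xOf (K n : ℕ) : ℕ := ⌊((n : ℝ) / 4) ^ (1 / (K : ℝ))⌋₊

lemma xOf_pow_le (K n : ℕ) (hK : 0 < K) : 4 * xOf K n ^ K ≤ n := by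
  have hK' : (0 : ℝ) < K := by exact_mod_cast hK
  have h0 : (0 : ℝ) ≤ (n : ℝ) / 4 := by positivity
  have h1 : (xOf K n : ℝ) ≤ ((n : ℝ) / 4) ^ (1 / (K : ℝ)) := Nat.floor_le (by positivity)
  have h2 : (xOf K n : ℝ) ^ K ≤ (n : ℝ) / 4 := by
    calc (xOf K n : ℝ) ^ K ≤ (((n : ℝ) / 4) ^ (1 / (K : ℝ))) ^ K :=
          pow_le_pow_left₀ (Nat.cast_nonneg _) h1 K
      _ = (n : ℝ) / 4 := by
          rw [← Real.rpow_natCast, ← Real.rpow_mul h0, one_div, inv_mul_cancel₀ hK'.ne',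
            Real.rpow_one]
  have h3 : ((4 * xOf K n ^ K : ℕ) : ℝ) ≤ n := by
    push_cast
    linarith
  exact_mod_cast h3

lemma xOf_le (K n : ℕ) : (xOf K n : ℝ) ≤ (n : ℝ) ^ (1 / (K : ℝ)) := by
  have h0 : (0 : ℝ) ≤ (n : ℝ) / 4 := by positivity
  have h1 : (xOf K n : ℝ) ≤ ((n : ℝ) / 4) ^ (1 / (K : ℝ)) := Nat.floor_le (by positivity)
  refine h1.trans (Real.rpow_le_rpow h0 ?_ (by positivity))
  have : (0 : ℝ) ≤ n := Nat.cast_nonneg n
  linarith

lemma le_xOf (K : ℕ) (hK : 0 < K) : ∀ᶠ n : ℕ in atTop,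
    (n : ℝ) ^ (1 / (K : ℝ)) / 8 ≤ (xOf K n : ℝ) := by
  have hK' : (0 : ℝ) < K := by exact_mod_cast hK
  have hK1 : (1 : ℝ) ≤ K := by exact_mod_cast hK
  filter_upwards [ev_rpow (1 / (K : ℝ)) 8 (by positivity)] with n hn
  have h0 : (0 : ℝ) ≤ (n : ℝ) := Nat.cast_nonneg n
  have h1 : ((n : ℝ) / 4) ^ (1 / (K : ℝ)) < xOf K n + 1 := Nat.lt_floor_add_one _
  have h2 : (n : ℝ) ^ (1 / (K : ℝ)) / 4 ≤ ((n : ℝ) / 4) ^ (1 / (K : ℝ)) := by
    rw [Real.div_rpow h0 (by norm_num)]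
    apply div_le_div_of_nonneg_left (by positivity) (by positivity)
    calc (4 : ℝ) ^ (1 / (K : ℝ)) ≤ 4 ^ (1 : ℝ) := by
          apply Real.rpow_le_rpow_of_exponent_le (by norm_num)
          rw [div_le_one hK']
          exact hK1
      _ = 4 := Real.rpow_one 4
  linarith

theorem main_avg (k a : ℕ) (ha : 2 ≤ a) (hak : a ≤ k) (hk : 3 ≤ k) (ε : ℝ) (hε : 0 < ε) :
    ∃ α : ℝ, 0 < α ∧ ∀ᶠ n : ℕ in atTop,
      ∃ (Λ : Type) (_ : Fintype Λ) (_ : Nonempty Λ) (x : Λ → Clause k n → Bool),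
        ∀ (N : ℕ) (C : Circuit (Clause k n) N) (out : Wire (Clause k n) N),
          (((C.fanins.map (· + 1)).prod : ℕ) : ℝ) ≤ max 1 ((n : ℝ) ^ ((k : ℝ) - a - ε)) →
          ((C.size + C.fanins.sum : ℕ) : ℝ) ≤ 2 ^ ((n : ℝ) ^ (1 - 1 / (a : ℝ) - ε)) →
          ({l : Λ | (out.eval (x l) (C.vals (x l)) = true ↔ ¬ Sat (x l))}.ncard : ℝ) <
            (1 / 2 + (n : ℝ) ^ (-α)) * Fintype.card Λ := by
  -- parameters
  obtain ⟨D, hD2, hDε⟩ : ∃ D : ℕ, 2 ≤ D ∧ 4 ≤ ε * D := by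
    refine ⟨⌈4 / ε⌉₊ + 2, by omega, ?_⟩
    have h1 : 4 / ε ≤ ⌈4 / ε⌉₊ := Nat.le_ceil _
    have h2 : ε * (4 / ε) = 4 := by field_simp
    push_cast
    nlinarith
  obtain ⟨t, ht⟩ : ∃ t, t = D + 4 := ⟨_, rfl⟩
  obtain ⟨s, hs⟩ : ∃ s, k = a + s := ⟨k - a, by omega⟩
  have hDa1 : 1 ≤ D * (a - 1) := Nat.mul_pos (by omega) (by omega)
  have hα1 : 1 ≤ D * (a - 1) - 1 := by
    have : D * 1 ≤ D * (a - 1) := Nat.mul_le_mul_left _ (by omega)
    omega
  have htα : D + 4 ≤ (D * (a - 1) - 1) * t := by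
    rw [ht]
    exact Nat.le_mul_of_pos_left _ hα1
  set K := (D * a - 1) * t with hKdef
  set K' := (D * (a - 1) - 1) * t - D - 3 with hK'def
  have hDa : D + 1 ≤ D * a - 1 := by
    have : D * 2 ≤ D * a := Nat.mul_le_mul_left _ ha
    omega
  have hKpos : 0 < K := Nat.mul_pos (by omega) (by omega)
  have hKDt : D * t ≤ K := Nat.mul_le_mul_right _ (by omega)
  have haR : (2 : ℝ) ≤ a := by exact_mod_cast ha
  have haR0 : (0 : ℝ) < a := by linarith
  -- real versions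
  have hKR : (K : ℝ) = (D * a - 1) * t := by
    rw [hKdef, Nat.cast_mul, Nat.cast_sub (by omega)]
    push_cast
    ring
  have hK'R : (K' : ℝ) = (D * (a - 1) - 1) * t - D - 3 := by
    rw [hK'def, Nat.cast_sub (by omega), Nat.cast_sub (by omega), Nat.cast_mul,
      Nat.cast_sub (by omega), Nat.cast_mul, Nat.cast_sub (by omega)]
    push_cast
    ring
  have hKR0 : (0 : ℝ) < K := by exact_mod_cast hKpos
  have htR : (t : ℝ) = D + 4 := by rw [ht]; push_cast; ring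
  have hDR : (2 : ℝ) ≤ D := by exact_mod_cast hD2
  have hKDtR : (D : ℝ) * t ≤ K := by exact_mod_cast hKDt
  have hexp : 1 - 1 / (a : ℝ) - ε + ε / 2 ≤ K' / K := by
    rw [le_div_iff₀ hKR0]
    have h1 : (K : ℝ) * (1 - 1 / a) = K' + t / a + D + 3 := by
      rw [hKR, hK'R]
      field_simp
      ring
    have h2 : (t : ℝ) / a ≤ t / 2 := by
      apply div_le_div_of_nonneg_left (by rw [htR]; linarith) (by norm_num) haR
    have h3 : (K : ℝ) * (ε / 2) ≥ 2 * t := by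
      have ht0 : (0 : ℝ) < t := by rw [htR]; linarith
      calc (K : ℝ) * (ε / 2) ≥ (D * t) * (ε / 2) := mul_le_mul_of_nonneg_right hKDtR (by positivity)
        _ = (ε * D) * t / 2 := by ring
        _ ≥ 4 * t / 2 := by
            apply div_le_div_of_nonneg_right _ (by norm_num)
            exact mul_le_mul_of_nonneg_right hDε ht0.le
        _ = 2 * t := by ring
    have h4 : (1 - 1 / (a : ℝ) - ε + ε / 2) * K = K * (1 - 1 / a) - K * (ε / 2) := by ring
    rw [h4, h1]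
    rw [htR] at h2 h3 ⊢
    linarith
  have hK1ε : 1 / (K : ℝ) ≤ ε / 4 := by
    rw [div_le_iff₀ hKR0]
    have ht1 : (1 : ℝ) ≤ t := by rw [htR]; linarith
    have : (D : ℝ) ≤ K := by nlinarith
    nlinarith
  have hK12 : 1 / (K : ℝ) ≤ 1 / 2 := by
    apply one_div_le_one_div_of_le (by norm_num)
    have ht1 : (1 : ℝ) ≤ t := by rw [htR]; linarith
    nlinarith
  refine ⟨1 / (2 * K), by positivity, ?_⟩
  -- eventual facts
  have hpar := par_ev a k s D t ha hk (by omega) hD2 htα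
  have htend : Tendsto (fun n : ℕ => xOf K n) atTop atTop := by
    apply tendsto_atTop.mpr
    intro m
    filter_upwards [le_xOf K hKpos, ev_rpow (1 / (K : ℝ)) (8 * m) (by positivity)] with n h1 h2
    have : (m : ℝ) ≤ xOf K n := by linarith
    exact_mod_cast this
  filter_upwards [htend.eventually hpar, htend.eventually (ev_pow 4 1), le_xOf K hKpos,
    ev_rpow (ε / 2) (8 ^ K') (by positivity), ev_rpow (1 / (2 * (K : ℝ))) 8 (by positivity),
    ev_rpow (3 * ε / 4) ((8 * (s + 1)) ^ s) (by positivity),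
    ev_rpow (1 / 2 : ℝ) ((8 * (s + 1)) ^ s) (by norm_num),
    eventually_ge_atTop (8 * (s + 1)), eventually_ge_atTop 1,
    htend.eventually (eventually_ge_atTop 1)]
    with n h1 h2 h3 h4 h5 h6 h7 h8 h9 h10
  have hn1 : (1 : ℝ) ≤ n := by exact_mod_cast h9
  have hn0 : (0 : ℝ) < n := by linarith
  set x := xOf K n with hx
  have hx0R : (0 : ℝ) < x := by
    have : 0 < x := by omega
    exact_mod_cast this
  set b := n / (4 * (s + 1)) with hb
  have hb1 : (n : ℝ) / (8 * (s + 1)) ≤ b := by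
    have hlt : n < (b + 1) * (4 * (s + 1)) := by
      rw [hb, mul_comm]
      exact Nat.lt_mul_div_succ n (by omega)
    have h11 : (n : ℝ) < (b + 1) * (4 * (s + 1)) := by exact_mod_cast hlt
    have h12 : (8 * (s + 1) : ℝ) ≤ n := by exact_mod_cast h8
    rw [div_le_iff₀ (by positivity)]
    nlinarith
  have hb0 : 0 < b := by
    have : (0 : ℝ) < b := lt_of_lt_of_le (by positivity) hb1
    exact_mod_cast this
  have hsb : 4 * (s * b) ≤ n := by
    calc 4 * (s * b) ≤ (4 * (s + 1)) * b := by nlinarith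
      _ ≤ n := by rw [hb]; exact Nat.mul_div_le _ _
  have hxK : 4 * x ^ ((D * a - 1) * t) ≤ n := xOf_pow_le K n hKpos
  have P := h1 n b hb0 hxK hsb
  rw [← hK'def] at P
  -- the size bound
  have hS : 2 ^ (x ^ K') ≤ 4 ^ (x ^ K') / (4 * x) := by
    rw [Nat.le_div_iff_mul_le (by omega)]
    have hK'0 : K' ≠ 0 := by
      rw [hK'def]
      omega
    calc 2 ^ (x ^ K') * (4 * x) ≤ 2 ^ (x ^ K') * 2 ^ x := by
          apply Nat.mul_le_mul_left
          rw [pow_one] at h2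
          exact h2.le
      _ ≤ 2 ^ (x ^ K') * 2 ^ (x ^ K') :=
          Nat.mul_le_mul_left _ (Nat.pow_le_pow_right (by norm_num) (Nat.le_self_pow hK'0 x))
      _ = 4 ^ (x ^ K') := by rw [show (4 : ℕ) = 2 * 2 from rfl, mul_pow]
  have he : (n : ℝ) ^ (1 - 1 / (a : ℝ) - ε) ≤ ((x ^ K' : ℕ) : ℝ) := by
    have h11 : (n : ℝ) ^ ((K' : ℝ) / K) ≤ 8 ^ K' * ((x ^ K' : ℕ) : ℝ) := by
      have h12 : (n : ℝ) ^ (1 / (K : ℝ)) ≤ 8 * x := by linarith
      calc (n : ℝ) ^ ((K' : ℝ) / K) = ((n : ℝ) ^ (1 / (K : ℝ))) ^ K' := by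
            rw [← Real.rpow_natCast, ← Real.rpow_mul hn0.le]
            congr 1
            ring
        _ ≤ (8 * x) ^ K' := pow_le_pow_left₀ (by positivity) h12 K'
        _ = 8 ^ K' * ((x ^ K' : ℕ) : ℝ) := by rw [mul_pow]; push_cast; ring
    have h13 : (n : ℝ) ^ (1 - 1 / (a : ℝ) - ε) * (n : ℝ) ^ (ε / 2) ≤ (n : ℝ) ^ ((K' : ℝ) / K) := by
      rw [← Real.rpow_add hn0]
      exact Real.rpow_le_rpow_of_exponent_le hn1 hexp
    have h14 : (n : ℝ) ^ (1 - 1 / (a : ℝ) - ε) * 8 ^ K' ≤ 8 ^ K' * ((x ^ K' : ℕ) : ℝ) :=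
      (mul_le_mul_of_nonneg_left h4 (by positivity)).trans (h13.trans h11)
    have h15 : (0 : ℝ) < 8 ^ K' := by positivity
    rw [mul_comm] at h14
    exact le_of_mul_le_mul_left h14 h15
  have hsize : ∀ T : ℕ, (T : ℝ) ≤ 2 ^ ((n : ℝ) ^ (1 - 1 / (a : ℝ) - ε)) →
      T ≤ 4 ^ (x ^ K') / (4 * x) := by
    intro T hT
    refine le_trans ?_ hS
    have h11 : (T : ℝ) ≤ ((2 ^ (x ^ K') : ℕ) : ℝ) := by
      refine hT.trans ?_
      push_cast
      rw [← Real.rpow_natCast 2 (x ^ K')]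
      exact Real.rpow_le_rpow_of_exponent_le (by norm_num) he
    exact_mod_cast h11
  -- the advantage
  have hadv : ∀ (c L : ℕ), 2 * x * c < (x + 2) * L →
      (c : ℝ) < (1 / 2 + (n : ℝ) ^ (-(1 / (2 * (K : ℝ))))) * L := by
    intro c L h
    have h11 : (2 : ℝ) * x * c < (x + 2) * L := by exact_mod_cast h
    have h12 : 1 / (x : ℝ) ≤ (n : ℝ) ^ (-(1 / (2 * (K : ℝ)))) := by
      rw [Real.rpow_neg hn0.le, ← one_div]
      apply one_div_le_one_div_of_le (by positivity)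
      have h13 : (n : ℝ) ^ (1 / (2 * (K : ℝ))) * 8 ≤
          (n : ℝ) ^ (1 / (2 * (K : ℝ))) * (n : ℝ) ^ (1 / (2 * (K : ℝ))) :=
        mul_le_mul_of_nonneg_left h5 (by positivity)
      have h14 : (n : ℝ) ^ (1 / (2 * (K : ℝ))) * (n : ℝ) ^ (1 / (2 * (K : ℝ))) =
          (n : ℝ) ^ (1 / (K : ℝ)) := by
        rw [← Real.rpow_add hn0]
        congr 1
        field_simp
        norm_num
      rw [h14] at h13
      linarith
    have h15 : (c : ℝ) < (1 / 2 + 1 / x) * L := by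
      have h16 : (2 * x : ℝ) * ((1 / 2 + 1 / x) * L) = (x + 2) * L := by
        field_simp
      rw [← h16] at h11
      exact lt_of_mul_lt_mul_left h11 (by positivity)
    refine h15.trans_le (mul_le_mul_of_nonneg_right ?_ (Nat.cast_nonneg _))
    linarith
  rcases Nat.eq_zero_or_pos s with hs0 | hs0
  · -- monotone circuits
    obtain ⟨Λ, i1, i2, X, hX⟩ := explicit_mono P
    refine ⟨Λ, i1, i2, X, ?_⟩
    intro N C out hprod hsz
    have hp1 : (C.fanins.map (· + 1)).prod ≤ 1 := by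
      have h11 : (n : ℝ) ^ ((k : ℝ) - a - ε) ≤ 1 := by
        apply Real.rpow_le_one_of_one_le_of_nonpos hn1
        have : (k : ℝ) = a := by rw [hs, hs0]; simp
        rw [this]
        linarith
      rw [max_eq_left h11] at hprod
      exact_mod_cast hprod
    exact hadv _ _ (hX N C out (hsize _ hsz) (sum_zero_of_prod _ hp1))
  · obtain ⟨Λ, i1, i2, X, hX⟩ := explicit_neg P
    refine ⟨Λ, i1, i2, X, ?_⟩
    intro N C out hprod hsz
    refine hadv _ _ (hX N C out (hsize _ hsz) ?_)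
    have hbs : (n : ℝ) ^ s / (8 * (s + 1)) ^ s ≤ (b : ℝ) ^ s := by
      rw [← div_pow]
      exact pow_le_pow_left₀ (by positivity) hb1 s
    have hks : (k : ℝ) - a - ε = s - ε := by rw [hs]; push_cast; ring
    rw [hks] at hprod
    have hxle : (x : ℝ) ≤ (n : ℝ) ^ (1 / (K : ℝ)) := xOf_le K n
    have hmain : (x : ℝ) * max 1 ((n : ℝ) ^ ((s : ℝ) - ε)) ≤ (b : ℝ) ^ s := by
      refine le_trans ?_ hbs
      rw [le_div_iff₀ (by positivity)]
      rcases max_choice 1 ((n : ℝ) ^ ((s : ℝ) - ε)) with hm | hm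
      · rw [hm, mul_one]
        calc (x : ℝ) * (8 * (s + 1)) ^ s ≤ (n : ℝ) ^ (1 / 2 : ℝ) * (n : ℝ) ^ (1 / 2 : ℝ) := by
              apply mul_le_mul _ h7 (by positivity) (by positivity)
              exact hxle.trans (Real.rpow_le_rpow_of_exponent_le hn1 hK12)
          _ = (n : ℝ) ^ (1 : ℝ) := by rw [← Real.rpow_add hn0]; norm_num
          _ ≤ (n : ℝ) ^ (s : ℝ) := by
              apply Real.rpow_le_rpow_of_exponent_le hn1
              exact_mod_cast hs0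
          _ = (n : ℝ) ^ s := Real.rpow_natCast _ _
      · rw [hm]
        calc (x : ℝ) * (n : ℝ) ^ ((s : ℝ) - ε) * (8 * (s + 1)) ^ s
            ≤ (n : ℝ) ^ (ε / 4) * (n : ℝ) ^ ((s : ℝ) - ε) * (n : ℝ) ^ (3 * ε / 4) := by
              apply mul_le_mul _ h6 (by positivity) (by positivity)
              apply mul_le_mul_of_nonneg_right _ (by positivity)
              exact hxle.trans (Real.rpow_le_rpow_of_exponent_le hn1 hK1ε)
          _ = (n : ℝ) ^ (s : ℝ) := by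
              rw [← Real.rpow_add hn0, ← Real.rpow_add hn0]
              congr 1
              ring
          _ = (n : ℝ) ^ s := Real.rpow_natCast _ _
    have h11 : ((x * (C.fanins.map (· + 1)).prod : ℕ) : ℝ) ≤ ((b ^ s : ℕ) : ℝ) := by
      rw [Nat.cast_mul, Nat.cast_pow]
      refine le_trans ?_ hmain
      exact mul_le_mul_of_nonneg_left hprod (Nat.cast_nonneg _)
    exact_mod_cast h11

end Pool.Agent.L5helper92.KS
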