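import Pool.Agent.H560R2.Av4

/-! Average-case lower bound for general spread systems (after `H560R2.poly_avg`). -/

namespace Pool.Agent.L5helper92.KS

open Finset Pool.Agent.H520R2 Pool.Agent.H560R2

theorem gen_avg {ι Pt : Type} [Fintype ι] [DecidableEq ι] [Fintype Pt] [Nonempty Pt]
    (gr : Pt → Finset ι) (f : Set ι → Prop) (hf : ∀ x, f x ↔ ∃ p, (gr p : Set ι) ⊆ x)
    (B J r e c M Q : ℕ) (hQ0 : 0 < Q) (hr : 64 * Q ≤ r) (hc : 1 ≤ c) (hJ : 2 * e < 2 ^ J)
    (hQ : 2 * (B * J) ≤ Q)
    (hB : (Fintype.card ι + 1) ^ (2 * e) * 4 ^ e ≤ 4 ^ B)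
    (hM : ∀ p, (gr p).card = M) (hPt : 2 * Fintype.card Pt ≤ 2 ^ M)
    (hind : ∀ Y : Finset ι, 1 ≤ Y.card → Y.card ≤ 2 * e →
      {p : Pt | Y ⊆ gr p}.ncard * (4 * r) ^ Y.card * c ≤ Fintype.card Pt)
    (hce : 4 * c ≤ 4 ^ e) :
    ∃ (Ng : Type) (_ : Fintype Ng) (_ : Nonempty Ng) (neg : Ng → Set ι),
      (∀ ω, ¬ f (neg ω)) ∧
      ∀ (Bs : Set (Set ι → Bool)) (_ : ∀ b ∈ Bs, ∃ T : Finset ι, T.card ≤ e ∧
          LeafOn T (fun x => b x = true))
        (s : ℕ) (g : Set ι → Bool) (_ : MComp Bs s g) (_ : 4 * c * s ≤ 4 ^ e),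
        ((univ.filter (fun p : Pt => g (gr p : Set ι) = true)).card : ℚ) *
            Fintype.card Ng * (2 * c) ≤
          ((univ.filter (fun ω : Ng => g (neg ω) = true)).card : ℚ) *
            Fintype.card Pt * (2 * c) +
            Fintype.card Ng * Fintype.card Pt := by
  classical
  have : NeZero Q := ⟨by omega⟩
  have hBB : ((univ : Finset (Finset ι)).filter (fun Y => Y.card ≤ 2 * e)).card * 4 ^ e ≤
      4 ^ B := (Nat.mul_le_mul_right _ (card_small_sets (2 * e))).trans hB
  -- the rejected random sets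
  set Om := ((Q ^ Fintype.card ι) ^ J) ^ B with hOm
  have hOmc : Fintype.card (Fin B → Fin J → ι → Fin Q) = Om := by
    rw [Fintype.card_fun, Fintype.card_fun, Fintype.card_fun, Fintype.card_fin, Fintype.card_fin,
      Fintype.card_fin]
  have hneg : 2 * {ω : Fin B → Fin J → ι → Fin Q | f (WB ω : Set ι)}.ncard ≤ Om := by
    have hsub : {ω : Fin B → Fin J → ι → Fin Q | f (WB ω : Set ι)} ⊆
        ⋃ p ∈ (univ : Finset Pt), {ω | gr p ⊆ WB ω} := by
      intro ω hω
      obtain ⟨p, hp⟩ := (hf _).mp hω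
      simp only [Set.mem_iUnion]
      exact ⟨p, mem_univ _, by simpa using hp⟩
    have h1 : {ω : Fin B → Fin J → ι → Fin Q | f (WB ω : Set ι)}.ncard ≤
        ∑ p : Pt, {ω : Fin B → Fin J → ι → Fin Q | gr p ⊆ WB ω}.ncard :=
      (Set.ncard_le_ncard hsub (Set.toFinite _)).trans (Finset.set_ncard_biUnion_le _ _)
    have h2 : ∀ p : Pt, {ω : Fin B → Fin J → ι → Fin Q | gr p ⊆ WB ω}.ncard * 2 ^ M ≤ Om := by
      intro p
      have h3 := count_contains (Q := Q) B J hQ (gr p)
      rw [hM p] at h3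
      exact h3
    have h3 : {ω : Fin B → Fin J → ι → Fin Q | f (WB ω : Set ι)}.ncard * 2 ^ M ≤
        Fintype.card Pt * Om := by
      calc _ ≤ (∑ p : Pt, {ω : Fin B → Fin J → ι → Fin Q | gr p ⊆ WB ω}.ncard) * 2 ^ M :=
            Nat.mul_le_mul_right _ h1
        _ ≤ ∑ p : Pt, Om := by
            rw [Finset.sum_mul]
            exact Finset.sum_le_sum (fun p _ => h2 p)
        _ = Fintype.card Pt * Om := by
            rw [Finset.sum_const, Finset.card_univ, smul_eq_mul]
    have hpos : 0 < 2 ^ M := by positivity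
    refine Nat.le_of_mul_le_mul_right ?_ hpos
    calc _ = ({ω : Fin B → Fin J → ι → Fin Q | f (WB ω : Set ι)}.ncard * 2 ^ M) * 2 := by ring
      _ ≤ (Fintype.card Pt * Om) * 2 := Nat.mul_le_mul_right _ h3
      _ = (2 * Fintype.card Pt) * Om := by ring
      _ ≤ 2 ^ M * Om := Nat.mul_le_mul_right _ hPt
      _ = _ := by ring
  let Ng := {ω : Fin B → Fin J → ι → Fin Q // ¬ f (WB ω : Set ι)}
  have hNgc : Om ≤ 2 * Fintype.card Ng := by
    have h1 := Set.ncard_add_ncard_compl {ω : Fin B → Fin J → ι → Fin Q | f (WB ω : Set ι)}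
    rw [Nat.card_eq_fintype_card, hOmc] at h1
    have h2 : Fintype.card Ng = {ω : Fin B → Fin J → ι → Fin Q | f (WB ω : Set ι)}ᶜ.ncard := by
      rw [← Nat.card_eq_fintype_card, ← Nat.card_coe_set_eq]
      rfl
    omega
  have hOmpos : 0 < Om := by positivity
  have hNgpos : 0 < Fintype.card Ng := by omega
  refine ⟨Ng, inferInstance, Fintype.card_pos_iff.mp hNgpos, fun ω => (WB ω.1 : Set ι),
    fun ω => ω.2, ?_⟩
  intro Bs hBs s g hg hs
  obtain ⟨t, op, a, b, val, o, ht, htop, hval, ho⟩ := mcomp_circ hg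
  have hct : 4 * c * t ≤ 4 ^ e := by
    rcases le_total s 1 with h | h
    · rw [max_eq_right h] at ht
      calc 4 * c * t ≤ 4 * c * 1 := Nat.mul_le_mul_left _ ht
        _ ≤ _ := by omega
    · rw [max_eq_left h] at ht
      exact (Nat.mul_le_mul_left _ ht).trans hs
  have hctq : (4 : ℚ) * c * t ≤ 4 ^ e := by exact_mod_cast hct
  have h4e : (0 : ℚ) < 4 ^ e := by positivity
  have hcq : (1 : ℚ) ≤ c := by exact_mod_cast hc
  set P := (univ.filter (fun p : Pt => g (gr p : Set ι) = true)).card with hP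
  set W := (univ.filter (fun ω : Ng => g (WB ω.1 : Set ι) = true)).card with hW
  have hPle : P ≤ Fintype.card Pt := by
    rw [hP, ← Finset.card_univ]
    exact Finset.card_filter_le _ _
  have hPset : ({p : Pt | val (gr p : Set ι) o} : Set _).ncard = P := by
    rw [hP, ← Set.ncard_coe_finset]
    congr 1
    ext p
    simp [ho]
  rcases spread_avg (Q := Q) (fun (b : {b // b ∈ Bs}) x => b.1 x = true) B J r e c hr hc hJ
    hBB (fun b => hBs b.1 b.2) (Pt := Pt) gr hind op a b htop val hval o with h | h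
  · -- true on most rejected sets
    have hWc : Fintype.card Ng - W ≤ {ω : Fin B → Fin J → ι → Fin Q |
        ¬ val (WB ω : Set ι) o}.ncard := by
      have h1 : Fintype.card Ng - W =
          (univ.filter (fun ω : Ng => ¬ g (WB ω.1 : Set ι) = true)).card := by
        have := Finset.card_filter_add_card_filter_not (s := (univ : Finset Ng))
          (fun ω => g (WB ω.1 : Set ι) = true)
        rw [Finset.card_univ] at this
        omega
      rw [h1, ← Set.ncard_coe_finset]
      apply Set.ncard_le_ncard_of_injOn (fun ω : Ng => ω.1)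
      · intro ω hω
        rw [Finset.mem_coe, Finset.mem_filter] at hω
        show ¬ val _ o
        rw [ho]
        exact hω.2
      · intro ω _ ω' _ h
        exact Subtype.ext h
    have h2 : ((Fintype.card Ng : ℚ) - W) * 4 ^ e ≤ t * (2 * Fintype.card Ng) := by
      have h3 : (Fintype.card Ng - W) * 4 ^ e ≤ t * (2 * Fintype.card Ng) :=
        (Nat.mul_le_mul_right _ hWc).trans (h.trans (Nat.mul_le_mul_left _ hNgc))
      have hWle : W ≤ Fintype.card Ng := by
        rw [hW, ← Finset.card_univ]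
        exact Finset.card_filter_le _ _
      have h4 : (((Fintype.card Ng - W) * 4 ^ e : ℕ) : ℚ) ≤ ((t * (2 * Fintype.card Ng) : ℕ) : ℚ) :=
        by exact_mod_cast h3
      rw [Nat.cast_mul, Nat.cast_sub hWle] at h4
      push_cast at h4
      exact h4
    have hNq : (0 : ℚ) < Fintype.card Ng := by exact_mod_cast hNgpos
    have h3 : ((Fintype.card Ng : ℚ) - W) * (2 * c) ≤ Fintype.card Ng := by
      refine le_of_mul_le_mul_right ?_ h4e
      calc ((Fintype.card Ng : ℚ) - W) * (2 * c) * 4 ^ e =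
            (((Fintype.card Ng : ℚ) - W) * 4 ^ e) * (2 * c) := by ring
        _ ≤ (t * (2 * Fintype.card Ng)) * (2 * c) :=
            mul_le_mul_of_nonneg_right h2 (by positivity)
        _ = Fintype.card Ng * (4 * c * t) := by ring
        _ ≤ Fintype.card Ng * 4 ^ e := mul_le_mul_of_nonneg_left hctq hNq.le
    have hPq : (P : ℚ) ≤ Fintype.card Pt := by exact_mod_cast hPle
    have hPt0 : (0 : ℚ) ≤ Fintype.card Pt := Nat.cast_nonneg _
    calc (P : ℚ) * Fintype.card Ng * (2 * c) ≤
          Fintype.card Pt * Fintype.card Ng * (2 * c) := by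
          apply mul_le_mul_of_nonneg_right _ (by positivity)
          exact mul_le_mul_of_nonneg_right hPq hNq.le
      _ = (W : ℚ) * Fintype.card Pt * (2 * c) +
          Fintype.card Pt * (((Fintype.card Ng : ℚ) - W) * (2 * c)) := by ring
      _ ≤ (W : ℚ) * Fintype.card Pt * (2 * c) +
          Fintype.card Pt * Fintype.card Ng := by
          have := mul_le_mul_of_nonneg_left h3 hPt0
          linarith
      _ = _ := by ring
  · -- false on most points
    rw [hPset] at h
    have hPt0 : (0 : ℚ) ≤ Fintype.card Pt := Nat.cast_nonneg _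
    have h1 : (c : ℚ) * (t * (1 / 4) ^ e) ≤ 1 / 4 := by
      have h0 : (c : ℚ) * (t * (1 / 4) ^ e) = (c * t) / 4 ^ e := by
        rw [one_div, inv_pow, ← mul_assoc, ← div_eq_mul_inv]
      rw [h0, div_le_iff₀ h4e]
      linarith
    have h2 : (P : ℚ) * (2 * c) ≤ Fintype.card Pt := by
      have h3 : (P : ℚ) * (3 * c) ≤ Fintype.card Pt * (5 / 4) := by
        refine h.trans ?_
        apply mul_le_mul_of_nonneg_left _ hPt0
        linarith
      have hP0 : (0 : ℚ) ≤ P := Nat.cast_nonneg _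
      nlinarith
    have hW0 : (0 : ℚ) ≤ (W : ℚ) * Fintype.card Pt * (2 * c) := by positivity
    have hNq : (0 : ℚ) ≤ Fintype.card Ng := Nat.cast_nonneg _
    have h4 := mul_le_mul_of_nonneg_left h2 hNq
    calc (P : ℚ) * Fintype.card Ng * (2 * c) = Fintype.card Ng * (P * (2 * c)) := by ring
      _ ≤ Fintype.card Ng * Fintype.card Pt := h4
      _ ≤ _ := by linarith

end Pool.Agent.L5helper92.KS
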