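import Pool.Agent.H560R2.Spread3

/-! Existence of hypergraphs in which small sets of edges span many vertices. -/

namespace Pool.Agent.L5helper92.KS

open Finset

/-- vertices of a set of edges -/
def nb {V M a : ℕ} (H : Fin M → Fin a → Fin V) (T : Finset (Fin M)) : Finset (Fin V) :=
  T.biUnion (fun i => univ.image (H i))

lemma mem_nb {V M a : ℕ} {H : Fin M → Fin a → Fin V} {T : Finset (Fin M)} {v : Fin V} :
    v ∈ nb H T ↔ ∃ i ∈ T, ∃ j, H i j = v := by
  simp [nb]

lemma self_pow_le (t : ℕ) : t ^ t ≤ 3 ^ t * t.factorial := by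
  have h := Real.pow_div_factorial_le_exp (t : ℝ) (Nat.cast_nonneg t) t
  have hf : (0 : ℝ) < (t.factorial : ℝ) := by exact_mod_cast t.factorial_pos
  rw [div_le_iff₀ hf] at h
  have h3 : Real.exp (t : ℝ) ≤ 3 ^ t := by
    have h1 : Real.exp (1 : ℝ) ≤ 3 := by
      have := Real.exp_one_lt_d9
      linarith
    have h2 : Real.exp (t : ℝ) = Real.exp 1 ^ t := by
      rw [← Real.exp_nat_mul, mul_one]
    rw [h2]
    exact pow_le_pow_left₀ (Real.exp_pos 1).le h1 t
  have h4 : (t : ℝ) ^ t ≤ 3 ^ t * t.factorial :=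
    h.trans (mul_le_mul_of_nonneg_right h3 hf.le)
  exact_mod_cast h4

lemma choose_mul_pow_le (n t : ℕ) : n.choose t * t ^ t ≤ 3 ^ t * n ^ t := by
  calc n.choose t * t ^ t ≤ n.choose t * (3 ^ t * t.factorial) :=
        Nat.mul_le_mul_left _ (self_pow_le t)
    _ = 3 ^ t * (t.factorial * n.choose t) := by ring
    _ = 3 ^ t * n.descFactorial t := by rw [Nat.descFactorial_eq_factorial_mul_choose]
    _ ≤ 3 ^ t * n ^ t := Nat.mul_le_mul_left _ (Nat.descFactorial_le_pow n t)

/-- the numerical estimate behind the union bound -/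
lemma term_bound (V M a D t σ : ℕ) (hD : 1 ≤ D) (ht : 1 ≤ t)
    (hσ : D * σ ≤ (D * (a - 1) - 1) * t) (ha : 2 ≤ a) (hσV : σ ≤ V)
    (hc : (12 * 3 ^ a * M) ^ D * a ^ (D + 1) * t ≤ V ^ (D + 1)) :
    M.choose t * V.choose σ * σ ^ (a * t) * 4 ^ t ≤ V ^ (a * t) := by
  obtain ⟨a', rfl⟩ : ∃ a', a = a' + 1 := ⟨a - 1, by omega⟩
  rw [Nat.add_sub_cancel] at hσ
  have ha' : 1 ≤ a' := by omega
  have hDa : 1 ≤ D * a' := Nat.mul_pos hD ha'
  rcases Nat.eq_zero_or_pos σ with h0 | hσ0
  · subst h0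
    rw [zero_pow (by positivity)]
    simp
  -- exponents
  have e1 : D * σ + t ≤ D * a' * t := by
    have : (D * a' - 1) * t + t = D * a' * t := by
      rw [← Nat.succ_mul, Nat.succ_eq_add_one, Nat.sub_add_cancel hDa]
    omega
  have hσt : σ ≤ (a' + 1) * t := by
    have : D * σ ≤ D * ((a' + 1) * t) := by
      calc D * σ ≤ D * a' * t := by omega
        _ ≤ D * ((a' + 1) * t) := by
          rw [mul_assoc]
          exact Nat.mul_le_mul_left _ (Nat.mul_le_mul_right _ (by omega))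
    exact Nat.le_of_mul_le_mul_left this hD
  obtain ⟨u, hu⟩ : ∃ u, (a' + 1) * t = σ + u := ⟨(a' + 1) * t - σ, by omega⟩
  have hDu : (D + 1) * t ≤ D * u := by
    have h1 : D * ((a' + 1) * t) = D * σ + D * u := by rw [hu]; ring
    have h2 : D * ((a' + 1) * t) = D * a' * t + D * t := by ring
    have h3 : (D + 1) * t = D * t + t := by ring
    omega
  obtain ⟨w, hw⟩ : ∃ w, D * u = (D + 1) * t + w := ⟨D * u - (D + 1) * t, by omega⟩
  have hV0 : 0 < V := by omega
  -- main inequality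
  have main : 12 ^ t * 3 ^ σ * M ^ t * σ ^ u ≤ V ^ u * t ^ t := by
    have hD0 : D ≠ 0 := by omega
    rw [← Nat.pow_le_pow_iff_left hD0]
    have hVp : 0 < V ^ ((D + 1) * t) := by positivity
    refine Nat.le_of_mul_le_mul_right ?_ hVp
    calc (12 ^ t * 3 ^ σ * M ^ t * σ ^ u) ^ D * V ^ ((D + 1) * t)
        = (12 ^ t * 3 ^ σ * M ^ t) ^ D * (σ ^ (D * u) * V ^ ((D + 1) * t)) := by
          rw [mul_pow, ← pow_mul σ, mul_comm u D]
          ring
      _ = (12 ^ t * 3 ^ σ * M ^ t) ^ D * (σ ^ ((D + 1) * t) * σ ^ w * V ^ ((D + 1) * t)) := by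
          rw [hw, pow_add]
      _ ≤ (12 ^ t * 3 ^ ((a' + 1) * t) * M ^ t) ^ D *
            (((a' + 1) * t) ^ ((D + 1) * t) * V ^ w * V ^ ((D + 1) * t)) := by
          gcongr
          · norm_num
      _ = ((12 * 3 ^ (a' + 1) * M) ^ D * (a' + 1) ^ (D + 1) * t) ^ t * t ^ (D * t) *
            (V ^ w * V ^ ((D + 1) * t)) := by
          have h1 : (12 ^ t * 3 ^ ((a' + 1) * t) * M ^ t) ^ D = ((12 * 3 ^ (a' + 1) * M) ^ D) ^ t := by
            rw [pow_mul, ← mul_pow, ← mul_pow, ← pow_mul, ← pow_mul, mul_comm t D]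
          have h2 : ((a' + 1) * t) ^ ((D + 1) * t) =
              ((a' + 1) ^ (D + 1)) ^ t * (t ^ t * t ^ (D * t)) := by
            rw [mul_pow, pow_mul (a' + 1), ← pow_add]
            congr 2
            ring
          rw [h1, h2]
          generalize (12 * 3 ^ (a' + 1) * M) ^ D = X1
          generalize (a' + 1) ^ (D + 1) = X2
          rw [mul_pow, mul_pow]
          ring
      _ ≤ (V ^ (D + 1)) ^ t * t ^ (D * t) * (V ^ w * V ^ ((D + 1) * t)) := by
          gcongr
      _ = (V ^ u * t ^ t) ^ D * V ^ ((D + 1) * t) := by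
          have h3 : (V ^ u * t ^ t) ^ D = V ^ ((D + 1) * t) * V ^ w * t ^ (D * t) := by
            rw [mul_pow, ← pow_mul V u D, mul_comm u D, hw, pow_add, ← pow_mul t t D, mul_comm t D]
          rw [h3, ← pow_mul V (D + 1) t]
          ring
  -- conclusion
  have hpos : 0 < t ^ t * σ ^ σ := by positivity
  refine Nat.le_of_mul_le_mul_right ?_ hpos
  calc M.choose t * V.choose σ * σ ^ ((a' + 1) * t) * 4 ^ t * (t ^ t * σ ^ σ)
      = (M.choose t * t ^ t) * (V.choose σ * σ ^ σ) * σ ^ ((a' + 1) * t) * 4 ^ t := by ring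
    _ ≤ (3 ^ t * M ^ t) * (3 ^ σ * V ^ σ) * σ ^ ((a' + 1) * t) * 4 ^ t :=
        Nat.mul_le_mul_right _ (Nat.mul_le_mul_right _
          (Nat.mul_le_mul (choose_mul_pow_le M t) (choose_mul_pow_le V σ)))
    _ = (12 ^ t * 3 ^ σ * M ^ t * σ ^ u) * (V ^ σ * σ ^ σ) := by
        rw [hu, pow_add]
        have : (12 : ℕ) ^ t = 3 ^ t * 4 ^ t := by rw [← mul_pow]; norm_num
        rw [this]
        ring
    _ ≤ (V ^ u * t ^ t) * (V ^ σ * σ ^ σ) := Nat.mul_le_mul_right _ main
    _ = V ^ ((a' + 1) * t) * (t ^ t * σ ^ σ) := by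
        rw [hu, pow_add]
        ring

/-- number of hypergraphs with all edges of `T` inside `S` -/
lemma card_inside {V M a : ℕ} (T : Finset (Fin M)) (S : Finset (Fin V)) :
    ((univ : Finset (Fin M → Fin a → Fin V)).filter (fun H => ∀ i ∈ T, ∀ j, H i j ∈ S)).card =
      S.card ^ (a * T.card) * V ^ (a * (M - T.card)) := by
  have h : ((univ : Finset (Fin M → Fin a → Fin V)).filter (fun H => ∀ i ∈ T, ∀ j, H i j ∈ S)) =
      Fintype.piFinset (fun i => if i ∈ T then Fintype.piFinset (fun _ : Fin a => S) else univ) := by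
    ext H
    simp only [mem_filter, mem_univ, true_and, Fintype.mem_piFinset]
    constructor
    · intro h i
      split_ifs with hi
      · rw [Fintype.mem_piFinset]
        exact h i hi
      · exact mem_univ _
    · intro h i hi j
      have := h i
      rw [if_pos hi, Fintype.mem_piFinset] at this
      exact this j
  rw [h, Fintype.card_piFinset]
  have h2 : ∀ i : Fin M, (if i ∈ T then Fintype.piFinset (fun _ : Fin a => S)
      else (univ : Finset (Fin a → Fin V))).card = if i ∈ T then S.card ^ a else V ^ a := by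
    intro i
    split_ifs
    · simp
    · simp
  simp only [h2]
  rw [Finset.prod_ite]
  simp only [Finset.prod_const]
  have h3 : (univ.filter (fun i => i ∈ T)).card = T.card := by
    congr 1
    ext i
    simp
  have h4 : (univ.filter (fun i => i ∉ T)).card = M - T.card := by
    have := Finset.card_filter_add_card_filter_not (s := (univ : Finset (Fin M))) (fun i => i ∈ T)
    rw [h3, Finset.card_univ, Fintype.card_fin] at this
    omega
  rw [h3, h4, ← pow_mul, ← pow_mul]

theorem exists_hyper (V M a D E2 : ℕ) (ha : 2 ≤ a) (hD : 1 ≤ D) (hV : 0 < V) (haE : a * E2 ≤ V)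
    (hc : (12 * 3 ^ a * M) ^ D * a ^ (D + 1) * E2 ≤ V ^ (D + 1)) :
    ∃ H : Fin M → Fin a → Fin V, ∀ T : Finset (Fin M), 1 ≤ T.card → T.card ≤ E2 →
      (D * (a - 1) - 1) * T.card ≤ D * (nb H T).card := by
  classical
  by_contra hcon
  push Not at hcon
  let σ : ℕ → ℕ := fun t => (D * (a - 1) - 1) * t / D
  have hσ1 : ∀ t, D * σ t ≤ (D * (a - 1) - 1) * t := fun t => Nat.mul_div_le _ _
  have hσ2 : ∀ t, t ≤ E2 → σ t ≤ V := by
    intro t ht
    have h1 : D * σ t ≤ D * (a * t) := by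
      calc D * σ t ≤ (D * (a - 1) - 1) * t := hσ1 t
        _ ≤ (D * (a - 1)) * t := Nat.mul_le_mul_right _ (Nat.sub_le _ _)
        _ ≤ (D * a) * t := Nat.mul_le_mul_right _ (Nat.mul_le_mul_left _ (Nat.sub_le _ _))
        _ = D * (a * t) := by ring
    have h2 := Nat.le_of_mul_le_mul_left h1 hD
    exact h2.trans ((Nat.mul_le_mul_left _ ht).trans haE)
  -- cover
  have hcover : (univ : Finset (Fin M → Fin a → Fin V)) ⊆
      (Finset.Ioc 0 E2).biUnion (fun t => ((univ : Finset (Fin M)).powersetCard t).biUnion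
        (fun T => ((univ : Finset (Fin V)).powersetCard (σ t)).biUnion (fun S =>
          (univ : Finset (Fin M → Fin a → Fin V)).filter (fun H => ∀ i ∈ T, ∀ j, H i j ∈ S)))) := by
    intro H _
    obtain ⟨T, hT1, hT2, hT3⟩ := hcon H
    rw [mem_biUnion]
    refine ⟨T.card, by rw [mem_Ioc]; omega, ?_⟩
    rw [mem_biUnion]
    refine ⟨T, by rw [mem_powersetCard]; exact ⟨subset_univ _, rfl⟩, ?_⟩
    have hle : (nb H T).card ≤ σ T.card := by
      show (nb H T).card ≤ (D * (a - 1) - 1) * T.card / D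
      rw [Nat.le_div_iff_mul_le hD, mul_comm]
      exact hT3.le
    obtain ⟨S, hS1, hS2⟩ : ∃ S : Finset (Fin V), nb H T ⊆ S ∧ S.card = σ T.card :=
      Finset.exists_superset_card_eq hle (by simpa using hσ2 _ hT2)
    rw [mem_biUnion]
    refine ⟨S, by rw [mem_powersetCard]; exact ⟨subset_univ _, hS2⟩, ?_⟩
    rw [mem_filter]
    exact ⟨mem_univ _, fun i hi j => hS1 (mem_nb.mpr ⟨i, hi, j, rfl⟩)⟩
  have h1 : (V ^ a) ^ M ≤ ∑ t ∈ Finset.Ioc 0 E2,
      M.choose t * (V.choose (σ t) * ((σ t) ^ (a * t) * V ^ (a * (M - t)))) := by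
    have h0 := Finset.card_le_card hcover
    rw [Finset.card_univ, Fintype.card_fun, Fintype.card_fun, Fintype.card_fin, Fintype.card_fin,
      Fintype.card_fin] at h0
    refine h0.trans (Finset.card_biUnion_le.trans (Finset.sum_le_sum (fun t _ => ?_)))
    refine Finset.card_biUnion_le.trans ?_
    have h2 : ∀ T ∈ (univ : Finset (Fin M)).powersetCard t,
        (((univ : Finset (Fin V)).powersetCard (σ t)).biUnion (fun S =>
          (univ : Finset (Fin M → Fin a → Fin V)).filter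
            (fun H => ∀ i ∈ T, ∀ j, H i j ∈ S))).card ≤
        V.choose (σ t) * ((σ t) ^ (a * t) * V ^ (a * (M - t))) := by
      intro T hT
      have hTc := (mem_powersetCard.mp hT).2
      refine Finset.card_biUnion_le.trans ?_
      have h3 : ∀ S ∈ (univ : Finset (Fin V)).powersetCard (σ t),
          ((univ : Finset (Fin M → Fin a → Fin V)).filter
            (fun H => ∀ i ∈ T, ∀ j, H i j ∈ S)).card ≤ (σ t) ^ (a * t) * V ^ (a * (M - t)) := by
        intro S hS
        rw [card_inside, hTc, (mem_powersetCard.mp hS).2]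
      refine (Finset.sum_le_sum h3).trans (le_of_eq ?_)
      rw [Finset.sum_const, Finset.card_powersetCard, Finset.card_univ, Fintype.card_fin,
        smul_eq_mul]
    refine (Finset.sum_le_sum h2).trans (le_of_eq ?_)
    rw [Finset.sum_const, Finset.card_powersetCard, Finset.card_univ, Fintype.card_fin,
      smul_eq_mul]
  have h2 : ∀ t ∈ Finset.Ioc 0 E2,
      ((M.choose t * (V.choose (σ t) * ((σ t) ^ (a * t) * V ^ (a * (M - t)))) : ℕ) : ℚ) ≤
        ((V ^ a) ^ M : ℕ) * (1 / 4) ^ t := by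
    intro t ht
    rw [mem_Ioc] at ht
    rcases Nat.lt_or_ge M t with hMt | hMt
    · rw [Nat.choose_eq_zero_of_lt hMt, zero_mul]
      push_cast
      positivity
    have h3 := term_bound V M a D t (σ t) hD (by omega) (hσ1 t) ha (hσ2 t ht.2)
      (le_trans (Nat.mul_le_mul_left _ ht.2) hc)
    have h4 : M.choose t * (V.choose (σ t) * ((σ t) ^ (a * t) * V ^ (a * (M - t)))) * 4 ^ t ≤
        (V ^ a) ^ M := by
      calc _ = (M.choose t * V.choose (σ t) * (σ t) ^ (a * t) * 4 ^ t) * V ^ (a * (M - t)) := by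
            ring
        _ ≤ V ^ (a * t) * V ^ (a * (M - t)) := Nat.mul_le_mul_right _ h3
        _ = (V ^ a) ^ M := by
            rw [← pow_add, ← mul_add, Nat.add_sub_cancel' hMt, pow_mul]
    have h5 : (((M.choose t * (V.choose (σ t) * ((σ t) ^ (a * t) * V ^ (a * (M - t)))) : ℕ)) : ℚ) *
        4 ^ t ≤ ((V ^ a) ^ M : ℕ) := by exact_mod_cast h4
    rw [one_div, inv_pow, ← div_eq_mul_inv, le_div_iff₀ (by positivity)]
    exact h5
  have h3 : (((V ^ a) ^ M : ℕ) : ℚ) ≤ ((V ^ a) ^ M : ℕ) * (1 / 3) := by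
    calc (((V ^ a) ^ M : ℕ) : ℚ) ≤ ((∑ t ∈ Finset.Ioc 0 E2,
          M.choose t * (V.choose (σ t) * ((σ t) ^ (a * t) * V ^ (a * (M - t)))) : ℕ) : ℚ) := by
          exact_mod_cast h1
      _ = ∑ t ∈ Finset.Ioc 0 E2,
          ((M.choose t * (V.choose (σ t) * ((σ t) ^ (a * t) * V ^ (a * (M - t)))) : ℕ) : ℚ) := by
          rw [Nat.cast_sum]
      _ ≤ ∑ t ∈ Finset.Ioc 0 E2, (((V ^ a) ^ M : ℕ) : ℚ) * (1 / 4) ^ t := Finset.sum_le_sum h2
      _ = (((V ^ a) ^ M : ℕ) : ℚ) * (1 / 3 * ((1 / 4) ^ 0 - (1 / 4) ^ E2)) := by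
          rw [← Finset.mul_sum, Pool.Agent.H560R2.geom_bound 0 E2 (Nat.zero_le _)]
      _ ≤ _ := by
          apply mul_le_mul_of_nonneg_left _ (Nat.cast_nonneg _)
          have : (0 : ℚ) ≤ (1 / 4) ^ E2 := by positivity
          rw [pow_zero]
          linarith
  have h4 : (0 : ℚ) < ((V ^ a) ^ M : ℕ) := by
    have : 0 < (V ^ a) ^ M := by positivity
    exact_mod_cast this
  linarith

end Pool.Agent.L5helper92.KS
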