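import Pool.Agent.L5helper92.KS.Avg
import Pool.Agent.L5helper92.KS.Hyper

/-! The base function: constraint satisfaction on a hypergraph with small alphabets. -/

namespace Pool.Agent.L5helper92.KS

open Finset Pool.Agent.H520R2 Pool.Agent.H560R2

variable {V M a q : ℕ}

/-- an edge together with a local assignment -/
abbrev El (M a q : ℕ) : Type := Fin M × (Fin a → Fin q)

/-- the local assignments of a global assignment -/
def gr (H : Fin M → Fin a → Fin V) (z : Fin V → Fin q) : Finset (El M a q) :=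
  univ.image (fun i => (i, fun j => z (H i j)))

/-- there is a global assignment all of whose local assignments are allowed -/
def fC (H : Fin M → Fin a → Fin V) (x : Set (El M a q)) : Prop :=
  ∃ z : Fin V → Fin q, ∀ i, ((i, fun j => z (H i j)) : El M a q) ∈ x

lemma mem_gr {H : Fin M → Fin a → Fin V} {z : Fin V → Fin q} {p : El M a q} :
    p ∈ gr H z ↔ (fun j => z (H p.1 j)) = p.2 := by
  unfold gr
  rw [mem_image]
  constructor
  · rintro ⟨i, _, rfl⟩; rfl
  · intro h
    exact ⟨p.1, mem_univ _, by rw [h]⟩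

lemma fC_iff (H : Fin M → Fin a → Fin V) (x : Set (El M a q)) :
    fC H x ↔ ∃ z : Fin V → Fin q, (gr H z : Set (El M a q)) ⊆ x := by
  constructor
  · rintro ⟨z, hz⟩
    refine ⟨z, fun p hp => ?_⟩
    rw [mem_coe, mem_gr] at hp
    have := hz p.1
    rw [hp] at this
    exact this
  · rintro ⟨z, hz⟩
    refine ⟨z, fun i => hz ?_⟩
    rw [mem_coe, mem_gr]

lemma card_gr (H : Fin M → Fin a → Fin V) (z : Fin V → Fin q) : (gr H z).card = M := by
  unfold gr
  rw [card_image_of_injective _ (fun i j h => (Prod.mk.inj h).1), card_univ, Fintype.card_fin]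

/-- number of assignments whose graph contains `Y` -/
lemma count_gr (H : Fin M → Fin a → Fin V) (Y : Finset (El M a q)) :
    {z : Fin V → Fin q | Y ⊆ gr H z}.ncard * q ^ (nb H (Y.image Prod.fst)).card ≤ q ^ V := by
  classical
  set N := nb H (Y.image Prod.fst) with hN
  have hle : {z : Fin V → Fin q | Y ⊆ gr H z}.ncard ≤ q ^ (V - N.card) := by
    have hcod : Nat.card ((Nᶜ : Finset (Fin V)) → Fin q) = q ^ (V - N.card) := by
      rw [Nat.card_eq_fintype_card, Fintype.card_fun, Fintype.card_coe, Finset.card_compl,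
        Fintype.card_fin, Fintype.card_fin]
    rw [← hcod, ← Set.ncard_univ]
    apply Set.ncard_le_ncard_of_injOn
      (fun (z : Fin V → Fin q) => fun (v : (Nᶜ : Finset (Fin V))) => z v.1)
    · intro z _; exact Set.mem_univ _
    · intro z hz z' hz' h
      funext v
      by_cases hv : v ∈ N
      · rw [hN, mem_nb] at hv
        obtain ⟨i, hi, j, hij⟩ := hv
        rw [mem_image] at hi
        obtain ⟨p, hp, rfl⟩ := hi
        have h1 := mem_gr.mp (hz hp)
        have h2 := mem_gr.mp (hz' hp)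
        rw [← hij]
        have h3 := congrFun h1 j
        have h4 := congrFun h2 j
        exact h3.trans h4.symm
      · exact congrFun h ⟨v, by rwa [mem_compl]⟩
  have hNV : N.card ≤ V := by
    have := Finset.card_le_univ N
    rwa [Fintype.card_fin] at this
  calc _ ≤ q ^ (V - N.card) * q ^ N.card := Nat.mul_le_mul_right _ hle
    _ = q ^ V := by rw [← pow_add, Nat.sub_add_cancel hNV]

lemma hind_base (H : Fin M → Fin a → Fin V) (D e r c : ℕ) (hD : 1 ≤ D) (hc : 1 ≤ c)
    (hH : ∀ T : Finset (Fin M), 1 ≤ T.card → T.card ≤ 2 * e →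
      (D * (a - 1) - 1) * T.card ≤ D * (nb H T).card)
    (hq0 : 0 < q)
    (hq : (4 * r * c) ^ D ≤ q ^ (D * (a - 1) - 1)) :
    ∀ Y : Finset (El M a q), 1 ≤ Y.card → Y.card ≤ 2 * e →
      {z : Fin V → Fin q | Y ⊆ gr H z}.ncard * (4 * r) ^ Y.card * c ≤
        Fintype.card (Fin V → Fin q) := by
  classical
  intro Y hY1 hY2
  rw [Fintype.card_fun, Fintype.card_fin, Fintype.card_fin]
  rcases Set.eq_empty_or_nonempty {z : Fin V → Fin q | Y ⊆ gr H z} with h | ⟨z0, hz0⟩
  · rw [h]; simp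
  have hz0' : Y ⊆ gr H z0 := hz0
  have hT : (Y.image Prod.fst).card = Y.card := by
    apply card_image_of_injOn
    intro p hp p' hp' h
    have h1 := mem_gr.mp (hz0' hp)
    have h2 := mem_gr.mp (hz0' hp')
    have h' : p.1 = p'.1 := h
    apply Prod.ext h'
    rw [← h1, ← h2, h']
  have h1 := hH (Y.image Prod.fst) (by omega) (by omega)
  rw [hT] at h1
  set N := nb H (Y.image Prod.fst) with hN
  have h2 : (4 * r) ^ Y.card * c ≤ q ^ N.card := by
    have hD0 : D ≠ 0 := by omega
    rw [← Nat.pow_le_pow_iff_left hD0]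
    calc ((4 * r) ^ Y.card * c) ^ D ≤ ((4 * r) ^ Y.card * c ^ Y.card) ^ D := by
          apply Nat.pow_le_pow_left
          exact Nat.mul_le_mul_left _ (Nat.le_self_pow (by omega) c)
      _ = ((4 * r * c) ^ D) ^ Y.card := by
          rw [← mul_pow (4 * r) c, ← pow_mul, ← pow_mul, mul_comm Y.card D]
      _ ≤ (q ^ (D * (a - 1) - 1)) ^ Y.card := Nat.pow_le_pow_left hq _
      _ = q ^ ((D * (a - 1) - 1) * Y.card) := by rw [← pow_mul]
      _ ≤ q ^ (D * N.card) := Nat.pow_le_pow_right hq0 h1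
      _ = (q ^ N.card) ^ D := by rw [← pow_mul, mul_comm]
  calc _ = {z : Fin V → Fin q | Y ⊆ gr H z}.ncard * ((4 * r) ^ Y.card * c) := by ring
    _ ≤ {z : Fin V → Fin q | Y ⊆ gr H z}.ncard * q ^ N.card := Nat.mul_le_mul_left _ h2
    _ ≤ q ^ V := count_gr H Y

theorem base_avg (H : Fin M → Fin a → Fin V) (D B J r e c Q : ℕ) (hD : 1 ≤ D) (hQ0 : 0 < Q)
    (hr : 64 * Q ≤ r) (hc : 1 ≤ c) (hJ : 2 * e < 2 ^ J) (hQ : 2 * (B * J) ≤ Q)
    (hH : ∀ T : Finset (Fin M), 1 ≤ T.card → T.card ≤ 2 * e →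
      (D * (a - 1) - 1) * T.card ≤ D * (nb H T).card)
    (hq0 : 0 < q) (hq : (4 * r * c) ^ D ≤ q ^ (D * (a - 1) - 1))
    (hB : (M * q ^ a + 1) ^ (2 * e) * 4 ^ e ≤ 4 ^ B)
    (hPt : 2 * q ^ V ≤ 2 ^ M) (hce : 4 * c ≤ 4 ^ e) :
    ∃ (Ng : Type) (_ : Fintype Ng) (_ : Nonempty Ng) (neg : Ng → Set (El M a q)),
      (∀ ω, ¬ fC H (neg ω)) ∧
      ∀ (Bs : Set (Set (El M a q) → Bool)) (_ : ∀ b ∈ Bs, ∃ T : Finset (El M a q), T.card ≤ e ∧
          LeafOn T (fun x => b x = true))
        (s : ℕ) (g : Set (El M a q) → Bool) (_ : MComp Bs s g) (_ : 4 * c * s ≤ 4 ^ e),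
        ((univ.filter (fun z : Fin V → Fin q => g (gr H z : Set (El M a q)) = true)).card : ℚ) *
            Fintype.card Ng * (2 * c) ≤
          ((univ.filter (fun ω : Ng => g (neg ω) = true)).card : ℚ) *
            Fintype.card (Fin V → Fin q) * (2 * c) +
            Fintype.card Ng * Fintype.card (Fin V → Fin q) := by
  have : Nonempty (Fin V → Fin q) := ⟨fun _ => ⟨0, hq0⟩⟩
  refine gen_avg (gr H) (fC H) (fC_iff H) B J r e c M Q hQ0 hr hc hJ hQ ?_ (card_gr H) ?_
    (hind_base H D e r c hD hc hH hq0 hq) hce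
  · have : Fintype.card (El M a q) = M * q ^ a := by
      rw [Fintype.card_prod, Fintype.card_fun, Fintype.card_fin, Fintype.card_fin, Fintype.card_fin]
    rw [this]
    exact hB
  · rw [Fintype.card_fun, Fintype.card_fin, Fintype.card_fin]
    exact hPt

end Pool.Agent.L5helper92.KS
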