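import Mathlib

/-! Satisfiability of CNF formulas with at most `k` literals per clause, given by presence bits. -/

namespace Pool.Agent.L5helper92.KS

/-- Clauses with at most `k` literals over the variables `x_0, ..., x_(n-1)`. A clause is a finite set
of literals; the literal `(i, true)` is `x_i` and `(i, false)` is its negation. -/
abbrev Clause (k n : ℕ) : Type := {c : Finset (Fin n × Bool) // c.card ≤ k}

/-- The assignment `z` satisfies the clause `c`. -/
def Holds {n : ℕ} (z : Fin n → Bool) (c : Finset (Fin n × Bool)) : Prop :=
  ∃ l ∈ c, z l.1 = l.2

/-- `x` is the indicator function of a `k`-CNF formula in `n` variables (`x c = true` if the clause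
`c` belongs to the formula); the formula has a satisfying assignment. -/
def Sat {k n : ℕ} (x : Clause k n → Bool) : Prop :=
  ∃ z : Fin n → Bool, ∀ c : Clause k n, x c = true → Holds z c.1

end Pool.Agent.L5helper92.KS
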