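import Pool.Agent.H520R2.NMDefs

/-! The dual of a circuit. -/

namespace Pool.Agent.L5helper92.KS

open Pool.Agent.H520R2.NM

variable {ι : Type}

/-- dual wire -/
def dualW {n : ℕ} : Wire ι n → Wire ι n
  | .input i => .input i
  | .const b => .const (!b)
  | .gate j => .gate j

/-- dual circuit: negate all inputs and all wires -/
def dualC : {n : ℕ} → Circuit ι n → Circuit ι n
  | _, .empty => .empty
  | _, .and C a b => .or (dualC C) (dualW a) (dualW b)
  | _, .or C a b => .and (dualC C) (dualW a) (dualW b)
  | _, .any C w u G a => .any (dualC C) w u (fun v j => !G (fun i => !v i) j) (fun i => dualW (a i))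

theorem dualW_eval {n : ℕ} (a : Wire ι n) (x : ι → Bool) (v v' : Fin n → Bool)
    (h : ∀ j, v' j = !v j) : (dualW a).eval x v' = !(a.eval (fun i => !x i) v) := by
  cases a with
  | input i => simp [dualW, Wire.eval]
  | const b => simp [dualW, Wire.eval]
  | gate j => simpa [dualW, Wire.eval] using h j

theorem dualC_vals {n : ℕ} (C : Circuit ι n) (x : ι → Bool) :
    ∀ j, (dualC C).vals x j = !(C.vals (fun i => !x i) j) := by
  induction C with
  | empty => intro j; exact j.elim0
  | and C a b ih =>
    intro j
    refine Fin.lastCases ?_ (fun j => ?_) j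
    · simp only [dualC, Circuit.vals, Fin.snoc_last]
      rw [dualW_eval a x _ _ ih, dualW_eval b x _ _ ih, Bool.not_and]
    · simp only [dualC, Circuit.vals, Fin.snoc_castSucc]
      exact ih j
  | or C a b ih =>
    intro j
    refine Fin.lastCases ?_ (fun j => ?_) j
    · simp only [dualC, Circuit.vals, Fin.snoc_last]
      rw [dualW_eval a x _ _ ih, dualW_eval b x _ _ ih, Bool.not_or]
    · simp only [dualC, Circuit.vals, Fin.snoc_castSucc]
      exact ih j
  | any C w u G a ih =>
    intro j
    refine Fin.addCases (fun j => ?_) (fun j => ?_) j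
    · simp only [dualC, Circuit.vals, Fin.append_left]
      exact ih j
    · simp only [dualC, Circuit.vals, Fin.append_right]
      congr 2
      funext i
      rw [dualW_eval (a i) x _ _ ih, Bool.not_not]

theorem dualC_size {n : ℕ} (C : Circuit ι n) : (dualC C).size = C.size := by
  induction C with
  | empty => rfl
  | and C a b ih => simp [dualC, Circuit.size, ih]
  | or C a b ih => simp [dualC, Circuit.size, ih]
  | any C w u G a ih => simpa [dualC, Circuit.size] using ih

theorem dualC_fanins {n : ℕ} (C : Circuit ι n) : (dualC C).fanins = C.fanins := by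
  induction C with
  | empty => rfl
  | and C a b ih => simpa [dualC, Circuit.fanins] using ih
  | or C a b ih => simpa [dualC, Circuit.fanins] using ih
  | any C w u G a ih => simp [dualC, Circuit.fanins, ih]

/-- the output of the dual circuit on the negated input -/
theorem dual_out {n : ℕ} (C : Circuit ι n) (out : Wire ι n) (x : ι → Bool) :
    (dualW out).eval x ((dualC C).vals x) = !(out.eval (fun i => !x i) (C.vals (fun i => !x i))) :=
  dualW_eval out x _ _ (dualC_vals C x)

end Pool.Agent.L5helper92.KS
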