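import Pool.Agent.L5helper92.KS.Defs

/-! Encoding of constraint satisfaction problems by clauses: one-hot encoding of symbols with
auxiliary variables for the conditions that every group has a symbol. -/

namespace Pool.Agent.L5helper92.KS

open Finset

section enc

variable {G : Type} {sz : G → ℕ} {n : ℕ}

/-- symbols: a group together with a value -/
abbrev Sym (sz : G → ℕ) : Type := Σ g : G, Fin (sz g)

/-- the first clause of the group `g` -/
def clS (φ : Sym sz × Bool ↪ Fin n) (hsz : ∀ g, 0 < sz g) (g : G) : Finset (Fin n × Bool) :=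
  {(φ (⟨g, ⟨0, hsz g⟩⟩, false), true)}

/-- the step clauses -/
def clT (φ : Sym sz × Bool ↪ Fin n) (p : Sym sz) : Finset (Fin n × Bool) :=
  {(φ (p, false), false), (φ (p, true), true)} ∪
    (if h : p.2.val + 1 < sz p.1 then {(φ (⟨p.1, ⟨p.2.val + 1, h⟩⟩, false), true)} else ∅)

/-- the clause of a forbidden cell -/
def clF (φ : Sym sz × Bool ↪ Fin n) (c : Finset (Sym sz)) : Finset (Fin n × Bool) :=
  c.map ⟨fun p => (φ (p, true), false), fun p p' h => by
    have := φ.injective (Prod.mk.inj h).1
    exact (Prod.mk.inj this).1⟩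

/-- the at-least-one clauses -/
def AL (φ : Sym sz × Bool ↪ Fin n) (hsz : ∀ g, 0 < sz g) : Set (Finset (Fin n × Bool)) :=
  {C | (∃ g, C = clS φ hsz g) ∨ ∃ p, C = clT φ p}

lemma card_clS (φ : Sym sz × Bool ↪ Fin n) (hsz : ∀ g, 0 < sz g) (g : G) :
    (clS φ hsz g).card = 1 := card_singleton _

lemma card_clT (φ : Sym sz × Bool ↪ Fin n) (p : Sym sz) : (clT φ p).card ≤ 3 := by
  unfold clT
  refine (card_union_le _ _).trans ?_
  have h1 : ({(φ (p, false), false), (φ (p, true), true)} : Finset (Fin n × Bool)).card ≤ 2 :=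
    card_le_two
  have h2 : (if h : p.2.val + 1 < sz p.1 then
      ({(φ (⟨p.1, ⟨p.2.val + 1, h⟩⟩, false), true)} : Finset (Fin n × Bool)) else ∅).card ≤ 1 := by
    split_ifs
    · simp
    · simp
  omega

lemma card_clF (φ : Sym sz × Bool ↪ Fin n) (c : Finset (Sym sz)) : (clF φ c).card = c.card :=
  card_map _

lemma clF_inj (φ : Sym sz × Bool ↪ Fin n) {c c' : Finset (Sym sz)} (h : clF φ c = clF φ c') :
    c = c' := Finset.map_injective _ h

lemma holds_clF (φ : Sym sz × Bool ↪ Fin n) (c : Finset (Sym sz)) (z : Fin n → Bool) :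
    Holds z (clF φ c) ↔ ∃ p ∈ c, z (φ (p, true)) = false := by
  unfold Holds clF
  constructor
  · rintro ⟨l, hl, h⟩
    rw [mem_map] at hl
    obtain ⟨p, hp, rfl⟩ := hl
    exact ⟨p, hp, h⟩
  · rintro ⟨p, hp, h⟩
    exact ⟨_, mem_map_of_mem _ hp, h⟩

lemma holds_clS (φ : Sym sz × Bool ↪ Fin n) (hsz : ∀ g, 0 < sz g) (g : G) (z : Fin n → Bool) :
    Holds z (clS φ hsz g) ↔ z (φ (⟨g, ⟨0, hsz g⟩⟩, false)) = true := by
  simp [Holds, clS]

lemma holds_clT (φ : Sym sz × Bool ↪ Fin n) (p : Sym sz) (z : Fin n → Bool) :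
    Holds z (clT φ p) ↔ (z (φ (p, false)) = false ∨ z (φ (p, true)) = true ∨
      ∃ h : p.2.val + 1 < sz p.1, z (φ (⟨p.1, ⟨p.2.val + 1, h⟩⟩, false)) = true) := by
  unfold Holds clT
  constructor
  · rintro ⟨l, hl, h⟩
    rw [mem_union] at hl
    rcases hl with hl | hl
    · rw [mem_insert, mem_singleton] at hl
      rcases hl with rfl | rfl
      · exact Or.inl h
      · exact Or.inr (Or.inl h)
    · split_ifs at hl with hp
      · rw [mem_singleton] at hl
        subst hl
        exact Or.inr (Or.inr ⟨hp, h⟩)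
      · simp at hl
  · rintro (h | h | ⟨hp, h⟩)
    · exact ⟨_, mem_union_left _ (mem_insert_self _ _), h⟩
    · exact ⟨_, mem_union_left _ (mem_insert_of_mem (mem_singleton_self _)), h⟩
    · refine ⟨(φ (⟨p.1, ⟨p.2.val + 1, hp⟩⟩, false), true), mem_union_right _ ?_, h⟩
      rw [dif_pos hp]
      exact mem_singleton_self _

lemma clF_not_AL (φ : Sym sz × Bool ↪ Fin n) (hsz : ∀ g, 0 < sz g) (c : Finset (Sym sz)) :
    clF φ c ∉ AL φ hsz := by
  have key : ∀ l ∈ clF φ c, l.2 = false := by
    intro l hl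
    unfold clF at hl
    rw [mem_map] at hl
    obtain ⟨p, _, rfl⟩ := hl
    rfl
  rintro (⟨g, h⟩ | ⟨p, h⟩)
  · have := key (φ (⟨g, ⟨0, hsz g⟩⟩, false), true) (by rw [h]; exact mem_singleton_self _)
    simp at this
  · have := key (φ (p, true), true) (by
      rw [h]
      exact mem_union_left _ (mem_insert_of_mem (mem_singleton_self _)))
    simp at this

theorem enc_sat (φ : Sym sz × Bool ↪ Fin n) (hsz : ∀ g, 0 < sz g) (𝓕 : Set (Finset (Sym sz))) :
    (∃ z : Fin n → Bool, (∀ C ∈ AL φ hsz, Holds z C) ∧ ∀ c ∈ 𝓕, Holds z (clF φ c)) ↔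
      ∃ σ : (g : G) → Fin (sz g), ∀ c ∈ 𝓕, ∃ p ∈ c, σ p.1 ≠ p.2 := by
  constructor
  · rintro ⟨z, h1, h2⟩
    have hex : ∀ g : G, ∃ u : Fin (sz g), z (φ (⟨g, u⟩, true)) = true := by
      intro g
      by_contra hcon
      push Not at hcon
      have hT : ∀ (u : ℕ) (hu : u < sz g), z (φ (⟨g, ⟨u, hu⟩⟩, false)) = true := by
        intro u
        induction u with
        | zero =>
          intro hu
          exact (holds_clS φ hsz g z).mp (h1 _ (Or.inl ⟨g, rfl⟩))
        | succ u ih =>
          intro hu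
          have h3 := (holds_clT φ ⟨g, ⟨u, by omega⟩⟩ z).mp (h1 _ (Or.inr ⟨_, rfl⟩))
          rcases h3 with h3 | h3 | ⟨_, h3⟩
          · have := ih (by omega)
            rw [this] at h3
            exact absurd h3 (by simp)
          · exact absurd h3 (hcon _)
          · exact h3
      have hg := hsz g
      have h3 := (holds_clT φ ⟨g, ⟨sz g - 1, by omega⟩⟩ z).mp (h1 _ (Or.inr ⟨_, rfl⟩))
      rcases h3 with h3 | h3 | ⟨h4, _⟩
      · have := hT (sz g - 1) (by omega)
        rw [this] at h3
        exact absurd h3 (by simp)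
      · exact absurd h3 (hcon _)
      · simp only at h4
        omega
    choose σ hσ using hex
    refine ⟨σ, fun c hc => ?_⟩
    obtain ⟨p, hp, hz⟩ := (holds_clF φ c z).mp (h2 c hc)
    refine ⟨p, hp, fun h => ?_⟩
    have := hσ p.1
    rw [h] at this
    rw [this] at hz
    exact absurd hz (by simp)
  · rintro ⟨σ, hσ⟩
    let val : Sym sz × Bool → Bool := fun p =>
      if p.2 = true then decide (σ p.1.1 = p.1.2) else decide (p.1.2.val ≤ (σ p.1.1).val)
    let z : Fin n → Bool := Function.extend φ val (fun _ => false)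
    have hz : ∀ p, z (φ p) = val p := fun p => φ.injective.extend_apply _ _ p
    refine ⟨z, ?_, ?_⟩
    · rintro C (⟨g, rfl⟩ | ⟨p, rfl⟩)
      · rw [holds_clS, hz]
        simp only [val, Bool.false_eq_true, if_false, decide_eq_true_eq]
        exact Nat.zero_le _
      · rw [holds_clT]
        rcases lt_trichotomy p.2.val (σ p.1).val with h | h | h
        · right; right
          have h2 := (σ p.1).isLt
          refine ⟨by omega, ?_⟩
          rw [hz]
          simp only [val]
          simp only [Bool.false_eq_true, if_false, decide_eq_true_eq]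
          omega
        · right; left
          rw [hz]
          simp only [val, if_true, decide_eq_true_eq]
          exact Fin.ext h.symm
        · left
          rw [hz]
          simp only [val, Bool.false_eq_true, if_false, decide_eq_false_iff_not]
          omega
    · intro c hc
      obtain ⟨p, hp, hne⟩ := hσ c hc
      rw [holds_clF]
      refine ⟨p, hp, ?_⟩
      rw [hz]
      simp only [val, if_true, decide_eq_false_iff_not]
      exact hne

end enc

end Pool.Agent.L5helper92.KS
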