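import Pool.Agent.L5helper92.KS.Enc1
import Pool.Agent.L5helper92.KS.Base
import Pool.Agent.L5helper92.KS.Dual

/-! Many copies of the base function inside satisfiability of `k`-CNF formulas. -/

namespace Pool.Agent.L5helper92.KS

open Finset Pool.Agent.H520R2 Pool.Agent.H520R2.NM Pool.Agent.H560R2

/-- sizes of the groups: `V` variables with `q` values and `s` digits with `b` values -/
abbrev szz (V s q b : ℕ) : Fin V ⊕ Fin s → ℕ := Sum.elim (fun _ => q) (fun _ => b)

section

variable {V M a q s b k n : ℕ}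

/-- the digits of the number of a copy -/
def dig (s b : ℕ) : Fin (b ^ s) ≃ (Fin s → Fin b) := finFunctionFinEquiv.symm

open Classical in
/-- the cell of an element in the copy with digits `d` -/
noncomputable def cell (H : Fin M → Fin a → Fin V) (d : Fin s → Fin b) (p : El M a q) :
    Finset (Sym (szz V s q b)) :=
  univ.image (fun t : Fin a => (⟨Sum.inl (H p.1 t), p.2 t⟩ : Sym (szz V s q b))) ∪
    univ.image (fun r : Fin s => (⟨Sum.inr r, d r⟩ : Sym (szz V s q b)))

lemma mem_cell {H : Fin M → Fin a → Fin V} {d : Fin s → Fin b} {p : El M a q}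
    {x : Sym (szz V s q b)} :
    x ∈ cell H d p ↔ (∃ t, (⟨Sum.inl (H p.1 t), p.2 t⟩ : Sym (szz V s q b)) = x) ∨
      ∃ r, (⟨Sum.inr r, d r⟩ : Sym (szz V s q b)) = x := by
  classical
  unfold cell
  rw [mem_union, mem_image, mem_image]
  simp

lemma card_cell (H : Fin M → Fin a → Fin V) (d : Fin s → Fin b) (p : El M a q) :
    (cell H d p).card ≤ a + s := by
  classical
  unfold cell
  refine (card_union_le _ _).trans ?_
  have h1 : (univ.image (fun t : Fin a =>
      (⟨Sum.inl (H p.1 t), p.2 t⟩ : Sym (szz V s q b)))).card ≤ a := by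
    refine card_image_le.trans ?_
    simp
  have h2 : (univ.image (fun r : Fin s =>
      (⟨Sum.inr r, d r⟩ : Sym (szz V s q b)))).card ≤ s := by
    refine card_image_le.trans ?_
    simp
  omega

open Classical in
/-- The absence bits of the formula given by the allowed elements of the copies. -/
noncomputable def EE (k : ℕ) (H : Fin M → Fin a → Fin V)
    (φ : Sym (szz V s q b) × Bool ↪ Fin n) (hsz : ∀ g, 0 < szz V s q b g)
    (y : Fin (b ^ s) → Set (El M a q)) : Clause k n → Bool :=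
  fun C => decide (C.1 ∉ AL φ hsz ∧ ∀ j p, clF φ (cell H (dig s b j) p) = C.1 → p ∈ y j)

lemma EE_true {H : Fin M → Fin a → Fin V} {φ : Sym (szz V s q b) × Bool ↪ Fin n}
    {hsz : ∀ g, 0 < szz V s q b g} {y : Fin (b ^ s) → Set (El M a q)} {C : Clause k n} :
    EE k H φ hsz y C = true ↔
      (C.1 ∉ AL φ hsz ∧ ∀ j p, clF φ (cell H (dig s b j) p) = C.1 → p ∈ y j) := by
  simp [EE]

lemma EE_mono (H : Fin M → Fin a → Fin V) (φ : Sym (szz V s q b) × Bool ↪ Fin n)
    (hsz : ∀ g, 0 < szz V s q b g) (y y' : Fin (b ^ s) → Set (El M a q))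
    (h : ∀ j, y j ⊆ y' j) : EE k H φ hsz y ≤ EE k H φ hsz y' := by
  intro C
  rcases hb : EE k H φ hsz y C with _ | _
  · exact Bool.false_le _
  · rw [EE_true] at hb
    have : EE k H φ hsz y' C = true := by
      rw [EE_true]
      exact ⟨hb.1, fun j p hp => h j (hb.2 j p hp)⟩
    rw [this]

theorem EE_sat (hk : 3 ≤ k) (hak : a + s ≤ k) (H : Fin M → Fin a → Fin V)
    (φ : Sym (szz V s q b) × Bool ↪ Fin n)
    (hsz : ∀ g, 0 < szz V s q b g) (y : Fin (b ^ s) → Set (El M a q)) :
    Sat (fun C : Clause k n => !(EE k H φ hsz y C)) ↔ ∃ j, fC H (y j) := by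
  classical
  let 𝓕 : Set (Finset (Sym (szz V s q b))) := {c | ∃ j p, c = cell H (dig s b j) p ∧ p ∉ y j}
  have h1 : Sat (fun C : Clause k n => !(EE k H φ hsz y C)) ↔
      (∃ z : Fin n → Bool, (∀ C ∈ AL φ hsz, Holds z C) ∧ ∀ c ∈ 𝓕, Holds z (clF φ c)) := by
    unfold Sat
    apply exists_congr
    intro z
    constructor
    · intro h
      constructor
      · intro C hC
        have hcard : C.card ≤ k := by
          rcases hC with ⟨g, rfl⟩ | ⟨p, rfl⟩
          · rw [card_clS]; omega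
          · exact (card_clT φ p).trans hk
        refine h ⟨C, hcard⟩ ?_
        simp only [Bool.not_eq_true']
        rw [← Bool.not_eq_true, EE_true]
        rintro ⟨h1, _⟩
        exact h1 hC
      · rintro c ⟨j, p, rfl, hp⟩
        have hcard : (clF φ (cell H (dig s b j) p)).card ≤ k := by
          rw [card_clF]
          exact (card_cell H _ p).trans hak
        refine h ⟨_, hcard⟩ ?_
        simp only [Bool.not_eq_true']
        rw [← Bool.not_eq_true, EE_true]
        rintro ⟨_, h2⟩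
        exact hp (h2 j p rfl)
    · rintro ⟨h1, h2⟩ C hC
      simp only [Bool.not_eq_true'] at hC
      rw [← Bool.not_eq_true, EE_true] at hC
      by_cases hAL : C.1 ∈ AL φ hsz
      · exact h1 _ hAL
      · have : ¬ ∀ j p, clF φ (cell H (dig s b j) p) = C.1 → p ∈ y j := fun h => hC ⟨hAL, h⟩
        push Not at this
        obtain ⟨j, p, hjp, hp⟩ := this
        rw [← hjp]
        exact h2 _ ⟨j, p, rfl, hp⟩
  rw [h1, enc_sat]
  constructor
  · rintro ⟨σ, hσ⟩
    let d : Fin s → Fin b := fun r => σ (Sum.inr r)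
    let z : Fin V → Fin q := fun v => σ (Sum.inl v)
    refine ⟨(dig s b).symm d, z, fun i => ?_⟩
    by_contra hcon
    obtain ⟨x, hx, hne⟩ := hσ _ ⟨(dig s b).symm d, (i, fun j => z (H i j)), rfl, hcon⟩
    rw [mem_cell] at hx
    rcases hx with ⟨t, rfl⟩ | ⟨r, rfl⟩
    · exact hne rfl
    · apply hne
      show d r = (dig s b) ((dig s b).symm d) r
      rw [Equiv.apply_symm_apply]
  · rintro ⟨j, z, hz⟩
    let σ : (g : Fin V ⊕ Fin s) → Fin (szz V s q b g) := fun g => match g with
      | Sum.inl v => z v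
      | Sum.inr r => dig s b j r
    refine ⟨σ, ?_⟩
    rintro c ⟨j', p, rfl, hp⟩
    by_contra hcon
    push Not at hcon
    apply hp
    have hj : dig s b j' = dig s b j := by
      funext r
      exact (hcon ⟨Sum.inr r, dig s b j' r⟩ (mem_cell.mpr (Or.inr ⟨r, rfl⟩))).symm
    have hj' : j' = j := (dig s b).injective hj
    have hp2 : p = (p.1, fun t => z (H p.1 t)) := by
      refine Prod.ext_iff.mpr ⟨rfl, ?_⟩
      funext t
      exact (hcon ⟨Sum.inl (H p.1 t), p.2 t⟩ (mem_cell.mpr (Or.inl ⟨t, rfl⟩))).symm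
    rw [hj', hp2]
    exact hz p.1

/-- few edges live on few vertices -/
lemma few_edges (H : Fin M → Fin a → Fin V) (D E2 : ℕ) (ha : 2 ≤ a) (hD : 2 ≤ D)
    (hH : ∀ T : Finset (Fin M), 1 ≤ T.card → T.card ≤ E2 →
      (D * (a - 1) - 1) * T.card ≤ D * (nb H T).card) (haE : 2 * a + 1 ≤ E2)
    (S : Finset (Fin V)) (hS : S.card ≤ a) (I : Finset (Fin M)) (hI : ∀ i ∈ I, ∀ j, H i j ∈ S) :
    I.card ≤ 2 * a := by
  classical
  by_contra hcon
  push Not at hcon
  obtain ⟨T, hTI, hT⟩ := Finset.exists_subset_card_eq (show 2 * a + 1 ≤ I.card by omega)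
  have h1 := hH T (by omega) (by omega)
  have h2 : (nb H T).card ≤ a := by
    refine le_trans (card_le_card ?_) hS
    intro v hv
    rw [mem_nb] at hv
    obtain ⟨i, hi, j, rfl⟩ := hv
    exact hI i (hTI hi) j
  rw [hT] at h1
  obtain ⟨a', rfl⟩ : ∃ a', a = a' + 1 := ⟨a - 1, by omega⟩
  rw [Nat.add_sub_cancel] at h1
  have ha' : 1 ≤ a' := by omega
  have h3 : 2 ≤ D * a' := by nlinarith
  have h4 : D * a' ≤ 2 * (D * a' - 1) := by omega
  have h5 : D * (nb H T).card ≤ D * (a' + 1) := Nat.mul_le_mul_left _ h2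
  have h6 : (D * a') * (2 * (a' + 1) + 1) ≤ 2 * (D * (a' + 1)) := by
    calc (D * a') * (2 * (a' + 1) + 1) ≤ (2 * (D * a' - 1)) * (2 * (a' + 1) + 1) :=
          Nat.mul_le_mul_right _ h4
      _ = 2 * ((D * a' - 1) * (2 * (a' + 1) + 1)) := by ring
      _ ≤ 2 * (D * (a' + 1)) := Nat.mul_le_mul_left _ (h1.trans h5)
  have hD1 : 1 ≤ D := by omega
  have h7 : 2 * (D * (a' + 1)) ≤ 4 * (D * a') := by
    have : D ≤ D * a' := Nat.le_mul_of_pos_right _ ha'
    nlinarith
  have h8 : 5 * (D * a') ≤ (D * a') * (2 * (a' + 1) + 1) := by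
    rw [mul_comm]
    exact Nat.mul_le_mul_left _ (by omega)
  omega

/-- the elements with the same clause -/
lemma leaf_card (H : Fin M → Fin a → Fin V) (D E2 : ℕ) (ha : 2 ≤ a) (hD : 2 ≤ D)
    (hH : ∀ T : Finset (Fin M), 1 ≤ T.card → T.card ≤ E2 →
      (D * (a - 1) - 1) * T.card ≤ D * (nb H T).card) (haE : 2 * a + 1 ≤ E2)
    (d : Fin s → Fin b) (T : Finset (El M a q))
    (hT : ∀ p ∈ T, ∀ p' ∈ T, cell H d p = cell H d p') : T.card ≤ 2 * a * a ^ a := by
  classical
  rcases T.eq_empty_or_nonempty with rfl | ⟨p0, hp0⟩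
  · simp
  let S : Finset (Fin V) := univ.image (H p0.1)
  let U : Finset (Fin q) := univ.image p0.2
  have hSc : S.card ≤ a := by
    refine card_image_le.trans ?_
    simp
  have hUc : U.card ≤ a := by
    refine card_image_le.trans ?_
    simp
  have key : ∀ p ∈ T, ∀ t, H p.1 t ∈ S ∧ p.2 t ∈ U := by
    intro p hp t
    have h1 : (⟨Sum.inl (H p.1 t), p.2 t⟩ : Sym (szz V s q b)) ∈ cell H d p0 := by
      rw [hT p0 hp0 p hp]
      exact mem_cell.mpr (Or.inl ⟨t, rfl⟩)
    rw [mem_cell] at h1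
    rcases h1 with ⟨t', h1⟩ | ⟨r, h1⟩
    · have h2 := Sigma.mk.inj h1
      have h3 : H p0.1 t' = H p.1 t := Sum.inl.inj h2.1
      have h4 : p0.2 t' = p.2 t := eq_of_heq (α := Fin q) h2.2
      exact ⟨by rw [← h3]; exact mem_image_of_mem _ (mem_univ _),
        by rw [← h4]; exact mem_image_of_mem _ (mem_univ _)⟩
    · have h2 := (Sigma.mk.inj h1).1
      simp at h2
  have hI := few_edges H D E2 ha hD hH haE S hSc (T.image Prod.fst) (by
    intro i hi j
    rw [mem_image] at hi
    obtain ⟨p, hp, rfl⟩ := hi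
    exact (key p hp j).1)
  have hsub : T ⊆ (T.image Prod.fst) ×ˢ Fintype.piFinset (fun _ : Fin a => U) := by
    intro p hp
    rw [mem_product]
    refine ⟨mem_image_of_mem _ hp, ?_⟩
    rw [Fintype.mem_piFinset]
    exact fun t => (key p hp t).2
  refine (card_le_card hsub).trans ?_
  rw [card_product, Fintype.card_piFinset]
  simp only [prod_const, card_univ, Fintype.card_fin]
  exact Nat.mul_le_mul hI (Nat.pow_le_pow_left hUc a)

/-- the base functions of a block are narrow -/
theorem EE_narrow (H : Fin M → Fin a → Fin V) (D e : ℕ) (ha : 2 ≤ a) (hD : 2 ≤ D)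
    (hH : ∀ T : Finset (Fin M), 1 ≤ T.card → T.card ≤ 2 * e →
      (D * (a - 1) - 1) * T.card ≤ D * (nb H T).card)
    (haE : 2 * a * a ^ a ≤ e)
    (φ : Sym (szz V s q b) × Bool ↪ Fin n) (hsz : ∀ g, 0 < szz V s q b g)
    (y : Fin (b ^ s) → Set (El M a q)) (J : Fin (b ^ s)) :
    ∀ β ∈ blockBase (EE k H φ hsz) y J,
      ∃ T : Finset (El M a q), T.card ≤ e ∧ LeafOn T (fun x => β x = true) := by
  classical
  rintro _ ⟨β, hβ, rfl⟩
  rcases hβ with ⟨c, rfl⟩ | ⟨C, rfl⟩
  · exact ⟨∅, by simp, fun x x' _ h => h⟩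
  · refine ⟨univ.filter (fun p => clF φ (cell H (dig s b J) p) = C.1), ?_, ?_⟩
    · have haa : 1 ≤ a ^ a := Nat.one_le_pow _ _ (by omega)
      have h2a : 2 * a ≤ 2 * a * a ^ a := Nat.le_mul_of_pos_right _ haa
      refine le_trans (leaf_card H D (2 * e) ha hD hH (by omega) (dig s b J) _ ?_) haE
      intro p hp p' hp'
      rw [mem_filter] at hp hp'
      exact clF_inj φ (hp.2.trans hp'.2.symm)
    · intro x x' hx h
      simp only at h ⊢
      rw [EE_true] at h ⊢
      refine ⟨h.1, fun j p hjp => ?_⟩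
      have := h.2 j p hjp
      by_cases hj : j = J
      · subst hj
        rw [Function.update_self] at this ⊢
        refine hx p ?_ this
        rw [mem_filter]
        exact ⟨mem_univ _, hjp⟩
      · rw [Function.update_of_ne hj] at this ⊢
        exact this

end

end Pool.Agent.L5helper92.KS
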