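import Pool.Agent.L5helper92.KS.Enc2

/-! Explicit forms of the lower bounds. -/

namespace Pool.Agent.L5helper92.KS

open Finset Pool.Agent.H520R2 Pool.Agent.H520R2.NM Pool.Agent.H560R2

section

variable {V M a q s b k n : ℕ}

/-- A circuit without non-monotone gates is a monotone program. -/
theorem frozen_mono {ι : Type} {N : ℕ} (C : Circuit ι N) (out : Wire ι N)
    (h0 : C.fanins.sum = 0) :
    ∃ g, MComp (VB ι) C.size g ∧ ∀ x, g x = out.eval x (C.vals x) := by
  obtain ⟨L, ρ, ps, hL, hlen, h1, h2, h3, h4, h5⟩ := C.frozen (fun _ => false)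
  have hps : ps = [] := by
    rw [← List.length_eq_zero_iff, h2, h0]
  subst hps
  refine ⟨out.pseudo ρ, ⟨L, hL, hlen, Wire.pseudo_av h1 out⟩, fun x => ?_⟩
  obtain ⟨_, h7⟩ := h4 x (by simp)
  exact Wire.pseudo_eq h7 out

/-- the parameters -/
structure Par (V M a q s b k n D B J r e c Q S : ℕ) : Prop where
  ha : 2 ≤ a
  hk : 3 ≤ k
  hak : a + s ≤ k
  hD : 2 ≤ D
  hb : 0 < b
  hV : 0 < V
  hQ0 : 0 < Q
  hr : 64 * Q ≤ r
  hc : 1 ≤ c
  hJ : 2 * e < 2 ^ J
  hQ : 2 * (B * J) ≤ Q
  hq0 : 0 < q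
  hq : (4 * r * c) ^ D ≤ q ^ (D * (a - 1) - 1)
  hB : (M * q ^ a + 1) ^ (2 * e) * 4 ^ e ≤ 4 ^ B
  hPt : 2 * q ^ V ≤ 2 ^ M
  hce : 4 * c ≤ 4 ^ e
  haE : a * (2 * e) ≤ V
  hyp : (12 * 3 ^ a * M) ^ D * a ^ (D + 1) * (2 * e) ≤ V ^ (D + 1)
  hleaf : 2 * a * a ^ a ≤ e
  hn : 2 * (V * q + s * b) ≤ n
  hS : 4 * c * S ≤ 4 ^ e

theorem block_adv {D B J r e c Q S : ℕ} (P : Par V M a q s b k n D B J r e c Q S) :
    ∃ (H : Fin M → Fin a → Fin V) (φ : Sym (szz V s q b) × Bool ↪ Fin n)
      (hsz : ∀ g, 0 < szz V s q b g)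
      (Ng : Type) (_ : Fintype Ng) (_ : Nonempty Ng) (neg : Ng → Set (El M a q)),
      (∀ ω, ¬ fC H (neg ω)) ∧ 0 < M ∧
      ∀ (z : Fin (b ^ s) → Set (El M a q)) (J : Fin (b ^ s)) (g : Set (El M a q) → Bool),
        MComp (blockBase (EE k H φ hsz) z J) S g →
        ((univ.filter (fun z : Fin V → Fin q => g (gr H z : Set (El M a q)) = true)).card : ℚ) *
            Fintype.card Ng * (2 * c) ≤
          ((univ.filter (fun ω : Ng => g (neg ω) = true)).card : ℚ) *
            Fintype.card (Fin V → Fin q) * (2 * c) +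
            Fintype.card Ng * Fintype.card (Fin V → Fin q) := by
  classical
  have hsz : ∀ g, 0 < szz V s q b g := by
    rintro (v | r)
    · exact P.hq0
    · exact P.hb
  obtain ⟨H, hH⟩ := exists_hyper V M a D (2 * e) P.ha (by have := P.hD; omega) P.hV P.haE P.hyp
  have hcard : Fintype.card (Sym (szz V s q b) × Bool) ≤ Fintype.card (Fin n) := by
    rw [Fintype.card_prod, Fintype.card_sigma, Fintype.sum_sum_type, Fintype.card_bool,
      Fintype.card_fin]
    have e1 : ∑ v : Fin V, Fintype.card (Fin (szz V s q b (Sum.inl v))) = V * q := by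
      calc _ = ∑ _v : Fin V, q := Finset.sum_congr rfl (fun _ _ => Fintype.card_fin q)
        _ = _ := by rw [sum_const, card_univ, Fintype.card_fin, smul_eq_mul]
    have e2 : ∑ r : Fin s, Fintype.card (Fin (szz V s q b (Sum.inr r))) = s * b := by
      calc _ = ∑ _v : Fin s, b := Finset.sum_congr rfl (fun _ _ => Fintype.card_fin b)
        _ = _ := by rw [sum_const, card_univ, Fintype.card_fin, smul_eq_mul]
    rw [e1, e2]
    have := P.hn
    omega
  obtain ⟨φ⟩ := Function.Embedding.nonempty_of_card_le hcard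
  obtain ⟨Ng, i1, i2, neg, h1, h2⟩ := base_avg H D B J r e c Q (by have := P.hD; omega) P.hQ0 P.hr
    P.hc P.hJ P.hQ hH P.hq0 P.hq P.hB P.hPt P.hce
  refine ⟨H, φ, hsz, Ng, i1, i2, neg, h1, ?_, ?_⟩
  · rcases Nat.eq_zero_or_pos M with h0 | h0
    · exfalso
      have := P.hPt
      rw [h0, pow_zero] at this
      have h3 : 0 < q ^ V := Nat.pow_pos P.hq0
      omega
    · exact h0
  · intro z J g hg
    exact h2 _ (EE_narrow H D e P.ha P.hD hH P.hleaf φ hsz z J) S g hg P.hS

/-- Circuits with few non-monotone gates. -/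
theorem explicit_neg {D B J r e c Q S : ℕ} (P : Par V M a q s b k n D B J r e c Q S) :
    ∃ (Λ : Type) (_ : Fintype Λ) (_ : Nonempty Λ) (x : Λ → Clause k n → Bool),
      ∀ (N : ℕ) (C : Circuit (Clause k n) N) (out : Wire (Clause k n) N),
        C.size + C.fanins.sum ≤ S → c * (C.fanins.map (· + 1)).prod ≤ b ^ s →
        2 * c * {l : Λ | (out.eval (x l) (C.vals (x l)) = true ↔ ¬ Sat (x l))}.ncard <
          (c + 2) * Fintype.card Λ := by
  classical
  obtain ⟨H, φ, hsz, Ng, i1, i2, neg, h1, hM, h2⟩ := block_adv P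
  have : Nonempty (Fin V → Fin q) := ⟨fun _ => ⟨0, P.hq0⟩⟩
  obtain ⟨Λ, j1, j2, x, hx⟩ := hard_dist (b ^ s) (Nat.pow_pos P.hb)
    (fun z : Fin V → Fin q => (gr H z : Set (El M a q))) neg c S (EE k H φ hsz)
    (EE_mono H φ hsz) (fC H) (fun z => (fC_iff H _).mpr ⟨z, subset_rfl⟩) h1
    (by rintro ⟨z, hz⟩; exact hz ⟨0, hM⟩) (fun x => Sat (fun C => !(x C)))
    (EE_sat P.hk P.hak H φ hsz) h2
  refine ⟨Λ, j1, j2, fun l C => !(x l C), ?_⟩
  intro N C out hS hc
  have h3 := hx N (dualC C) (dualW out) (by rw [dualC_size, dualC_fanins]; exact hS)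
    (by rw [dualC_fanins]; exact hc)
  refine lt_of_le_of_lt ?_ h3
  apply Nat.mul_le_mul_left
  rw [← Set.ncard_coe_finset]
  apply Set.ncard_le_ncard _ (Set.toFinite _)
  intro l hl
  rw [mem_coe, mem_filter]
  refine ⟨mem_univ _, ?_⟩
  rw [dual_out]
  have hl' : (out.eval (fun C => !(x l C)) (C.vals (fun C => !(x l C))) = true ↔
    ¬ Sat (fun C => !(x l C))) := hl
  rw [Bool.not_eq_true', ← Bool.not_eq_true, hl', not_not]

/-- Monotone circuits. -/
theorem explicit_mono {D B J r e c Q S : ℕ} (P : Par V M a q s b k n D B J r e c Q S) :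
    ∃ (Λ : Type) (_ : Fintype Λ) (_ : Nonempty Λ) (x : Λ → Clause k n → Bool),
      ∀ (N : ℕ) (C : Circuit (Clause k n) N) (out : Wire (Clause k n) N),
        C.size + C.fanins.sum ≤ S → C.fanins.sum = 0 →
        2 * c * {l : Λ | (out.eval (x l) (C.vals (x l)) = true ↔ ¬ Sat (x l))}.ncard <
          (c + 2) * Fintype.card Λ := by
  classical
  obtain ⟨H, φ, hsz, Ng, i1, i2, neg, h1, hM, h2⟩ := block_adv P
  have : Nonempty (Fin V → Fin q) := ⟨fun _ => ⟨0, P.hq0⟩⟩
  let J0 : Fin (b ^ s) := ⟨0, Nat.pow_pos P.hb⟩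
  let y0 : Fin (b ^ s) → Set (El M a q) := fun _ => ∅
  let X : Set (El M a q) → Clause k n → Bool := fun W C => !(EE k H φ hsz (Function.update y0 J0 W) C)
  have hf0 : ¬ fC H (∅ : Set (El M a q)) := by rintro ⟨z, hz⟩; exact hz ⟨0, hM⟩
  have hX : ∀ W, Sat (X W) ↔ fC H W := by
    intro W
    rw [EE_sat P.hk P.hak H φ hsz]
    constructor
    · rintro ⟨j, hj⟩
      by_cases hj0 : j = J0
      · rw [hj0, Function.update_self] at hj
        exact hj
      · rw [Function.update_of_ne hj0] at hj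
        exact absurd hj hf0
    · intro h
      exact ⟨J0, by rw [Function.update_self]; exact h⟩
  refine ⟨((Fin V → Fin q) × Ng) ⊕ ((Fin V → Fin q) × Ng), inferInstance, inferInstance,
    Sum.elim (fun p => X (gr H p.1 : Set (El M a q))) (fun p => X (neg p.2)), ?_⟩
  intro N C out hS hC
  obtain ⟨g, hg, hgx⟩ := frozen_mono (dualC C) (dualW out) (by rw [dualC_fanins]; exact hC)
  have hcomp := hg.comp (B' := blockBase (EE k H φ hsz) y0 J0)
    (fun W => EE k H φ hsz (Function.update y0 J0 W)) (fun b hb => ⟨b, hb, rfl⟩)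
  have hcomp' : MComp (blockBase (EE k H φ hsz) y0 J0) S
      (g ∘ fun W => EE k H φ hsz (Function.update y0 J0 W)) := by
    obtain ⟨L, k1, k2, k3⟩ := hcomp
    refine ⟨L, k1, k2.trans ?_, k3⟩
    rw [dualC_size]
    omega
  have h3 := h2 y0 J0 _ hcomp'
  have hval : ∀ W, ((g ∘ fun W => EE k H φ hsz (Function.update y0 J0 W)) W = true ↔
      ¬ out.eval (X W) (C.vals (X W)) = true) := by
    intro W
    show g (EE k H φ hsz (Function.update y0 J0 W)) = true ↔ _
    rw [hgx, dual_out, Bool.not_eq_true', Bool.not_eq_true]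
  simp only [hval] at h3
  set A := (univ.filter (fun z : Fin V → Fin q =>
    ¬ out.eval (X (gr H z : Set (El M a q))) (C.vals (X (gr H z : Set (El M a q)))) = true)).card
    with hA
  set A' := (univ.filter (fun ω : Ng =>
    ¬ out.eval (X (neg ω)) (C.vals (X (neg ω))) = true)).card with hA'
  set P1 := Fintype.card (Fin V → Fin q) with hP1
  set P2 := Fintype.card Ng with hP2
  have hP1p : 0 < P1 := Fintype.card_pos
  have hP2p : 0 < P2 := Fintype.card_pos
  have hA'le : A' ≤ P2 := by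
    rw [hA', hP2, ← Finset.card_univ]
    exact card_filter_le _ _
  have hcount : {l : ((Fin V → Fin q) × Ng) ⊕ ((Fin V → Fin q) × Ng) |
      (out.eval (Sum.elim (fun p => X (gr H p.1 : Set (El M a q))) (fun p => X (neg p.2)) l)
        (C.vals (Sum.elim (fun p => X (gr H p.1 : Set (El M a q))) (fun p => X (neg p.2)) l)) =
          true ↔ ¬ Sat (Sum.elim (fun p => X (gr H p.1 : Set (El M a q)))
            (fun p => X (neg p.2)) l))}.ncard ≤ A * P2 + P1 * (P2 - A') := by
    have hsub : {l : ((Fin V → Fin q) × Ng) ⊕ ((Fin V → Fin q) × Ng) |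
      (out.eval (Sum.elim (fun p => X (gr H p.1 : Set (El M a q))) (fun p => X (neg p.2)) l)
        (C.vals (Sum.elim (fun p => X (gr H p.1 : Set (El M a q))) (fun p => X (neg p.2)) l)) =
          true ↔ ¬ Sat (Sum.elim (fun p => X (gr H p.1 : Set (El M a q)))
            (fun p => X (neg p.2)) l))} ⊆
        (((univ.filter (fun z : Fin V → Fin q => ¬ out.eval (X (gr H z : Set (El M a q)))
          (C.vals (X (gr H z : Set (El M a q)))) = true)) ×ˢ (univ : Finset Ng)).disjSum
        ((univ : Finset (Fin V → Fin q)) ×ˢ (univ.filter (fun ω : Ng =>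
          ¬ ¬ out.eval (X (neg ω)) (C.vals (X (neg ω))) = true))) :
            Finset (((Fin V → Fin q) × Ng) ⊕ ((Fin V → Fin q) × Ng))) := by
      rintro (p | p) hp
      · rw [mem_coe, inl_mem_disjSum, mem_product, mem_filter]
        refine ⟨⟨mem_univ _, ?_⟩, mem_univ _⟩
        have hp' : (out.eval (X (gr H p.1 : Set (El M a q)))
          (C.vals (X (gr H p.1 : Set (El M a q)))) = true ↔
            ¬ Sat (X (gr H p.1 : Set (El M a q)))) := hp
        rw [hp', not_not, hX, fC_iff]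
        exact ⟨p.1, subset_rfl⟩
      · rw [mem_coe, inr_mem_disjSum, mem_product, mem_filter]
        refine ⟨mem_univ _, mem_univ _, ?_⟩
        have hp' : (out.eval (X (neg p.2)) (C.vals (X (neg p.2))) = true ↔
            ¬ Sat (X (neg p.2))) := hp
        rw [not_not, hp', hX]
        exact h1 p.2
    refine (Set.ncard_le_ncard hsub (Set.toFinite _)).trans ?_
    rw [Set.ncard_coe_finset, card_disjSum, card_product, card_product, card_univ, card_univ]
    have h5 := Finset.card_filter_add_card_filter_not (s := (univ : Finset Ng))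
      (fun ω => ¬ out.eval (X (neg ω)) (C.vals (X (neg ω))) = true)
    rw [card_univ] at h5
    have h6 : (univ.filter (fun ω : Ng =>
          ¬ ¬ out.eval (X (neg ω)) (C.vals (X (neg ω))) = true)).card = P2 - A' := by
      omega
    rw [h6]
  have hfinal : (2 * c * (A * P2 + P1 * (P2 - A')) : ℕ) < (c + 2) *
      Fintype.card (((Fin V → Fin q) × Ng) ⊕ ((Fin V → Fin q) × Ng)) := by
    rw [Fintype.card_sum, Fintype.card_prod, ← hP1, ← hP2]
    have h7 : ((2 * c * (A * P2 + P1 * (P2 - A')) : ℕ) : ℚ) <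
        (((c + 2) * (P1 * P2 + P1 * P2) : ℕ) : ℚ) := by
      rw [Nat.cast_mul, Nat.cast_add, Nat.cast_mul P1, Nat.cast_sub hA'le]
      push_cast
      have hp : (0 : ℚ) < (P1 : ℚ) * P2 := by
        have e1 : (0 : ℚ) < P1 := by exact_mod_cast hP1p
        have e2 : (0 : ℚ) < P2 := by exact_mod_cast hP2p
        positivity
      nlinarith
    exact_mod_cast h7
  refine lt_of_le_of_lt (Nat.mul_le_mul_left _ hcount) hfinal

end

end Pool.Agent.L5helper92.KS
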