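import Pool.Agent.L5helper92.KS.Asym2

/-! Randomised circuits. -/

namespace Pool.Agent.L5helper92.KS

open Filter Finset Pool.Agent.H520R2.NM

/-- averaging: a distribution that is hard for all circuits gives an input that is hard for a
random circuit -/
theorem avg_input {Λ Ω : Type} [Fintype Λ] [Nonempty Λ] [Fintype Ω] (p : Ω → ℝ)
    (hp : ∀ r, 0 ≤ p r) (hp1 : ∑ r, p r = 1) (ok : Ω → Λ → Prop) (δ : ℝ)
    (h : ∀ r, ({l | ok r l}.ncard : ℝ) < δ * Fintype.card Λ) :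
    ∃ l, ∀ Q : Finset Ω, (∀ r ∈ Q, ok r l) → ∑ r ∈ Q, p r < δ := by
  classical
  by_contra hcon
  push Not at hcon
  have h1 : ∀ l, δ ≤ ∑ r, p r * (if ok r l then 1 else 0) := by
    intro l
    obtain ⟨Q, hQ, hδ⟩ := hcon l
    refine hδ.trans ?_
    calc ∑ r ∈ Q, p r = ∑ r ∈ Q, p r * (if ok r l then 1 else 0) := by
          apply Finset.sum_congr rfl
          intro r hr
          rw [if_pos (hQ r hr), mul_one]
      _ ≤ ∑ r, p r * (if ok r l then 1 else 0) := by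
          apply Finset.sum_le_sum_of_subset_of_nonneg (Finset.subset_univ _)
          intro r _ _
          apply mul_nonneg (hp r)
          split_ifs <;> norm_num
  have h2 : (Fintype.card Λ : ℝ) * δ ≤ ∑ l : Λ, ∑ r, p r * (if ok r l then (1 : ℝ) else 0) := by
    calc (Fintype.card Λ : ℝ) * δ = ∑ _l : Λ, δ := by
          rw [Finset.sum_const, Finset.card_univ, nsmul_eq_mul]
      _ ≤ _ := Finset.sum_le_sum (fun l _ => h1 l)
  rw [Finset.sum_comm] at h2
  have h3 : ∀ r, ∑ l : Λ, p r * (if ok r l then (1 : ℝ) else 0) = p r * ({l | ok r l}.ncard : ℝ) := by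
    intro r
    rw [← Finset.mul_sum]
    congr 1
    have : ({l | ok r l} : Set Λ) = ((univ.filter (fun l => ok r l) : Finset Λ) : Set Λ) := by
      ext l; simp
    rw [this, Set.ncard_coe_finset, Finset.card_filter]
    push_cast
    rfl
  simp only [h3] at h2
  have hΛ : (0 : ℝ) < Fintype.card Λ := by exact_mod_cast Fintype.card_pos
  have h4 : ∑ r, p r * ({l | ok r l}.ncard : ℝ) < δ * Fintype.card Λ := by
    obtain ⟨r0, hr0⟩ : ∃ r, 0 < p r := by
      by_contra hno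
      push Not at hno
      have : ∑ r, p r ≤ 0 := Finset.sum_nonpos (fun r _ => hno r)
      linarith
    calc ∑ r, p r * ({l | ok r l}.ncard : ℝ) < ∑ r, p r * (δ * Fintype.card Λ) := by
          apply Finset.sum_lt_sum
          · intro r _
            exact mul_le_mul_of_nonneg_left (h r).le (hp r)
          · exact ⟨r0, Finset.mem_univ _, mul_lt_mul_of_pos_left (h r0) hr0⟩
      _ = δ * Fintype.card Λ := by rw [← Finset.sum_mul, hp1, one_mul]
  linarith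

theorem main_both (k a : ℕ) (ha : 2 ≤ a) (hak : a ≤ k) (hk : 3 ≤ k) (ε : ℝ) (hε : 0 < ε) :
    ∃ α : ℝ, 0 < α ∧ ∀ᶠ n : ℕ in atTop,
      (∃ (Λ : Type) (_ : Fintype Λ) (_ : Nonempty Λ) (x : Λ → Clause k n → Bool),
        ∀ (N : ℕ) (C : Circuit (Clause k n) N) (out : Wire (Clause k n) N),
          (((C.fanins.map (· + 1)).prod : ℕ) : ℝ) ≤ max 1 ((n : ℝ) ^ ((k : ℝ) - a - ε)) →
          ((C.size + C.fanins.sum : ℕ) : ℝ) ≤ 2 ^ ((n : ℝ) ^ (1 - 1 / (a : ℝ) - ε)) →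
          ({l : Λ | (out.eval (x l) (C.vals (x l)) = true ↔ ¬ Sat (x l))}.ncard : ℝ) <
            (1 / 2 + (n : ℝ) ^ (-α)) * Fintype.card Λ) ∧
      ∀ (Ω : Type) [Fintype Ω] (p : Ω → ℝ), (∀ r, 0 ≤ p r) → ∑ r, p r = 1 →
        ∀ (N : Ω → ℕ) (C : ∀ r, Circuit (Clause k n) (N r)) (out : ∀ r, Wire (Clause k n) (N r)),
          (∀ r, ((((C r).fanins.map (· + 1)).prod : ℕ) : ℝ) ≤
            max 1 ((n : ℝ) ^ ((k : ℝ) - a - ε))) →
          (∀ r, (((C r).size + (C r).fanins.sum : ℕ) : ℝ) ≤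
            2 ^ ((n : ℝ) ^ (1 - 1 / (a : ℝ) - ε))) →
          ∃ x : Clause k n → Bool, ∀ Q : Finset Ω,
            (∀ r ∈ Q, ((out r).eval x ((C r).vals x) = true ↔ ¬ Sat x)) →
              ∑ r ∈ Q, p r < 1 / 2 + (n : ℝ) ^ (-α) := by
  obtain ⟨α, hα, h⟩ := main_avg k a ha hak hk ε hε
  refine ⟨α, hα, ?_⟩
  filter_upwards [h] with n hn
  refine ⟨hn, ?_⟩
  obtain ⟨Λ, i1, i2, x, hx⟩ := hn
  intro Ω _ p hp hp1 N C out h1 h2
  obtain ⟨l, hl⟩ := avg_input p hp hp1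
    (fun r l => ((out r).eval (x l) ((C r).vals (x l)) = true ↔ ¬ Sat (x l)))
    (1 / 2 + (n : ℝ) ^ (-α)) (fun r => hx (N r) (C r) (out r) (h1 r) (h2 r))
  exact ⟨x l, hl⟩

end Pool.Agent.L5helper92.KS
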